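import Mathlib

/-! Counting the codes that parametrise the frames. -/

namespace Pool.Agent.Lib.MP_abd417_co

open Finset

/-- the three special residues at the prime `p` -/
def sp (io : ℕ → ℕ) (j : Fin 3) (p : ℕ) : ℕ := ![1, io p, 0] j

/-- primes at which the code takes the `j`-th special value -/
def spec (P : Finset ℕ) (io : ℕ → ℕ) (j : Fin 3) (t : ℕ →₀ ℕ) : Finset ℕ :=
  P.filter (fun p => t p = sp io j p)

/-- primes that are present in the code -/
def pres (P : Finset ℕ) (t : ℕ →₀ ℕ) : Finset ℕ := P.filter (fun p => t p ≠ p)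

/-- the admissible codes -/
noncomputable def codes (P : Finset ℕ) (io : ℕ → ℕ) (k s : ℕ) : Finset (ℕ →₀ ℕ) :=
  (P.finsupp fun p => Finset.range (p + 1)).filter
    (fun t => (∀ j, (spec P io j t).card = s) ∧ (pres P t).card = k + s)

/-- allowed values at `p` for given index sets -/
def choice (io : ℕ → ℕ) (h D1 D2 D3 : Finset ℕ) (p : ℕ) : Finset ℕ :=
  if p ∈ D1 then {1} else if p ∈ D2 then {io p} else if p ∈ D3 then {0}
  else if p ∈ h then Finset.range p \ {0, 1, io p} else {p}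

lemma choice_spec {P : Finset ℕ} {io : ℕ → ℕ} (hP : ∀ p ∈ P, 1 < io p ∧ io p < p)
    {h D1 D2 D3 : Finset ℕ} (hh : h ⊆ P) (h1 : D1 ⊆ P \ h) (h2 : D2 ⊆ h) (h3 : D3 ⊆ h \ D2)
    {t : ℕ →₀ ℕ} (ht : t ∈ P.finsupp (choice io h D1 D2 D3)) :
    spec P io 0 t = D1 ∧ spec P io 1 t = D2 ∧ spec P io 2 t = D3 ∧ pres P t = h ∪ D1 ∧
      t ∈ P.finsupp fun p => Finset.range (p + 1) := by
  rw [Finset.mem_finsupp_iff] at ht
  have key : ∀ p ∈ P, (t p = 1 ↔ p ∈ D1) ∧ (t p = io p ↔ p ∈ D2) ∧ (t p = 0 ↔ p ∈ D3) ∧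
      (t p ≠ p ↔ p ∈ h ∨ p ∈ D1) ∧ t p < p + 1 := by
    intro p hp
    have a := ht.2 p hp
    have b := hP p hp
    have c1 : p ∈ D1 → p ∉ h := fun x => (Finset.mem_sdiff.1 (h1 x)).2
    have c2 : p ∈ D2 → p ∈ h := fun x => h2 x
    have c3 : p ∈ D3 → p ∈ h ∧ p ∉ D2 := fun x => Finset.mem_sdiff.1 (h3 x)
    unfold choice at a
    split_ifs at a with d1 d2 d3 d4
    · rw [Finset.mem_singleton] at a
      have e2 : p ∉ D2 := fun x => c1 d1 (c2 x)
      have e3 : p ∉ D3 := fun x => c1 d1 (c3 x).1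
      simp only [d1, e2, e3, or_true, iff_true, iff_false]
      omega
    · rw [Finset.mem_singleton] at a
      have e3 : p ∉ D3 := fun x => (c3 x).2 d2
      simp only [d1, d2, e3, c2 d2, true_or, iff_true, iff_false]
      omega
    · rw [Finset.mem_singleton] at a
      simp only [d1, d2, d3, (c3 d3).1, true_or, iff_true, iff_false]
      omega
    · simp only [Finset.mem_sdiff, Finset.mem_range, Finset.mem_insert, Finset.mem_singleton,
        not_or] at a
      simp only [d1, d2, d3, d4, true_or, iff_true, iff_false]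
      omega
    · rw [Finset.mem_singleton] at a
      simp only [d1, d2, d3, d4, or_self, iff_false]
      omega
  refine ⟨?_, ?_, ?_, ?_, ?_⟩
  · ext p
    simp only [spec, sp, Finset.mem_filter, Matrix.cons_val_zero]
    exact ⟨fun x => (key p x.1).1.1 x.2, fun x =>
      have := (Finset.mem_sdiff.1 (h1 x)).1
      ⟨this, (key p this).1.2 x⟩⟩
  · ext p
    simp only [spec, sp, Finset.mem_filter, Matrix.cons_val_one, Matrix.cons_val_zero]
    exact ⟨fun x => (key p x.1).2.1.1 x.2, fun x =>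
      have := hh (h2 x)
      ⟨this, (key p this).2.1.2 x⟩⟩
  · ext p
    simp only [spec, sp, Finset.mem_filter, Matrix.cons_val_two, Matrix.tail_cons,
      Matrix.head_cons]
    exact ⟨fun x => (key p x.1).2.2.1.1 x.2, fun x =>
      have := hh (Finset.mem_sdiff.1 (h3 x)).1
      ⟨this, (key p this).2.2.1.2 x⟩⟩
  · ext p
    simp only [pres, Finset.mem_filter, Finset.mem_union]
    refine ⟨fun x => (key p x.1).2.2.2.1.1 x.2, fun x => ?_⟩
    have : p ∈ P := x.elim (fun y => hh y) (fun y => (Finset.mem_sdiff.1 (h1 y)).1)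
    exact ⟨this, (key p this).2.2.2.1.2 x⟩
  · rw [Finset.mem_finsupp_iff]
    exact ⟨ht.1, fun p hp => Finset.mem_range.2 (key p hp).2.2.2.2⟩

lemma prod_le_card_choice {P : Finset ℕ} {io : ℕ → ℕ} {x s : ℕ} (hx : ∀ p ∈ P, 4 ≤ p ∧ p ≤ x)
    {h D1 D2 D3 : Finset ℕ} (hh : h ⊆ P) (h1 : D1 ⊆ P \ h) (h2 : D2 ⊆ h) (h3 : D3 ⊆ h \ D2)
    (c2 : D2.card = s) (c3 : D3.card = s) :
    ∏ p ∈ h, (p - 3) ≤ x ^ (2 * s) * (P.finsupp (choice io h D1 D2 D3)).card := by
  rw [Finset.card_finsupp, ← Finset.prod_sdiff h2, ← Finset.prod_sdiff h3]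
  have a2 : ∏ p ∈ D2, (p - 3) ≤ x ^ s := by
    rw [← c2]
    exact Finset.prod_le_pow_card _ _ _ fun p hp => by have := hx p (hh (h2 hp)); omega
  have a3 : ∏ p ∈ D3, (p - 3) ≤ x ^ s := by
    rw [← c3]
    exact Finset.prod_le_pow_card _ _ _ fun p hp => by
      have := hx p (hh (Finset.mem_sdiff.1 (h3 hp)).1); omega
  have gen : ∀ p, p - 3 ≤ (Finset.range p \ {0, 1, io p}).card := by
    intro p
    have a := Finset.le_card_sdiff ({0, 1, io p} : Finset ℕ) (Finset.range p)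
    have b : ({0, 1, io p} : Finset ℕ).card ≤ 3 := Finset.card_le_three
    rw [Finset.card_range] at a
    omega
  have a1 : ∏ p ∈ (h \ D2) \ D3, (p - 3) ≤ ∏ p ∈ P, (choice io h D1 D2 D3 p).card := by
    have hsub : (h \ D2) \ D3 ⊆ P := (Finset.sdiff_subset.trans Finset.sdiff_subset).trans hh
    refine le_trans ?_ (Finset.prod_le_prod_of_subset_of_one_le' hsub ?_)
    · refine Finset.prod_le_prod' fun p hp => ?_
      simp only [Finset.mem_sdiff] at hp
      have : p ∉ D1 := fun y => (Finset.mem_sdiff.1 (h1 y)).2 hp.1.1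
      unfold choice
      rw [if_neg this, if_neg hp.1.2, if_neg hp.2, if_pos hp.1.1]
      exact gen p
    · intro p hp _
      unfold choice
      split_ifs
      · simp
      · simp
      · simp
      · have := gen p
        have := hx p hp
        omega
      · simp
  calc (∏ p ∈ (h \ D2) \ D3, (p - 3)) * (∏ p ∈ D3, (p - 3)) * ∏ p ∈ D2, (p - 3)
      ≤ (∏ p ∈ P, (choice io h D1 D2 D3 p).card) * x ^ s * x ^ s := by gcongr
    _ = x ^ (2 * s) * ∏ p ∈ P, (choice io h D1 D2 D3 p).card := by ring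

theorem card_codes {P : Finset ℕ} {io : ℕ → ℕ} (hP : ∀ p ∈ P, 1 < io p ∧ io p < p)
    {x : ℕ} (hx : ∀ p ∈ P, 4 ≤ p ∧ p ≤ x) (k s : ℕ) :
    (P.card - k).choose s * k.choose s * (k - s).choose s *
      ∑ h ∈ P.powersetCard k, ∏ p ∈ h, (p - 3) ≤ x ^ (2 * s) * (codes P io k s).card := by
  let S : Finset (Σ _ : Finset ℕ, Σ _ : Finset ℕ, Σ _ : Finset ℕ, Σ _ : Finset ℕ, ℕ →₀ ℕ) :=
    (P.powersetCard k).sigma fun h => ((P \ h).powersetCard s).sigma fun D1 =>
      (h.powersetCard s).sigma fun D2 => ((h \ D2).powersetCard s).sigma fun D3 =>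
        P.finsupp (choice io h D1 D2 D3)
  have hS : S.card ≤ (codes P io k s).card := by
    refine Finset.card_le_card_of_injOn (fun a => a.2.2.2.2) ?_ ?_
    · rintro ⟨h, D1, D2, D3, t⟩ ha
      simp only [S, Finset.coe_sigma, Set.mem_sigma_iff, Finset.mem_coe,
        Finset.mem_powersetCard] at ha
      obtain ⟨⟨hh, ch⟩, ⟨h1, c1⟩, ⟨h2, c2⟩, ⟨h3, c3⟩, ht⟩ := ha
      obtain ⟨e1, e2, e3, e4, e5⟩ := choice_spec hP hh h1 h2 h3 ht
      rw [Finset.mem_coe, codes, Finset.mem_filter]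
      refine ⟨e5, ?_, ?_⟩
      · intro j
        fin_cases j
        · exact e1 ▸ c1
        · exact e2 ▸ c2
        · exact e3 ▸ c3
      · show (pres P t).card = k + s
        rw [e4, Finset.card_union_of_disjoint, ch, c1]
        exact Finset.disjoint_left.2 fun p hp hp' => (Finset.mem_sdiff.1 (h1 hp')).2 hp
    · rintro ⟨h, D1, D2, D3, t⟩ ha ⟨h', D1', D2', D3', t'⟩ ha' e
      simp only [S, Finset.coe_sigma, Set.mem_sigma_iff, Finset.mem_coe,
        Finset.mem_powersetCard] at ha ha'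
      obtain ⟨⟨hh, ch⟩, ⟨h1, c1⟩, ⟨h2, c2⟩, ⟨h3, c3⟩, ht⟩ := ha
      obtain ⟨⟨hh', ch'⟩, ⟨h1', c1'⟩, ⟨h2', c2'⟩, ⟨h3', c3'⟩, ht'⟩ := ha'
      obtain rfl : t = t' := e
      obtain ⟨e1, e2, e3, e4, -⟩ := choice_spec hP hh h1 h2 h3 ht
      obtain ⟨e1', e2', e3', e4', -⟩ := choice_spec hP hh' h1' h2' h3' ht'
      obtain rfl : D1 = D1' := e1.symm.trans e1'
      obtain rfl : D2 = D2' := e2.symm.trans e2'
      obtain rfl : D3 = D3' := e3.symm.trans e3'
      obtain rfl : h = h' := by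
        have e := e4.symm.trans e4'
        ext p
        have := Finset.ext_iff.1 e p
        simp only [Finset.mem_union] at this
        have a : p ∈ D1 → p ∉ h := fun y => (Finset.mem_sdiff.1 (h1 y)).2
        have b : p ∈ D1 → p ∉ h' := fun y => (Finset.mem_sdiff.1 (h1' y)).2
        tauto
      rfl
  refine le_trans ?_ (Nat.mul_le_mul_left _ hS)
  simp only [S, Finset.card_sigma, Finset.mul_sum]
  refine Finset.sum_le_sum fun h hh => ?_
  rw [Finset.mem_powersetCard] at hh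
  have step : ∀ D1 ∈ (P \ h).powersetCard s,
      k.choose s * (k - s).choose s * ∏ p ∈ h, (p - 3) ≤
        ∑ D2 ∈ h.powersetCard s, ∑ D3 ∈ (h \ D2).powersetCard s,
          x ^ (2 * s) * (P.finsupp (choice io h D1 D2 D3)).card := by
    intro D1 h1
    rw [Finset.mem_powersetCard] at h1
    have step2 : ∀ D2 ∈ h.powersetCard s, (k - s).choose s * ∏ p ∈ h, (p - 3) ≤
        ∑ D3 ∈ (h \ D2).powersetCard s,
          x ^ (2 * s) * (P.finsupp (choice io h D1 D2 D3)).card := by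
      intro D2 h2
      rw [Finset.mem_powersetCard] at h2
      have := Finset.card_nsmul_le_sum ((h \ D2).powersetCard s)
        (fun D3 => x ^ (2 * s) * (P.finsupp (choice io h D1 D2 D3)).card) (∏ p ∈ h, (p - 3))
        (fun D3 h3 => by
          rw [Finset.mem_powersetCard] at h3
          exact prod_le_card_choice hx hh.1 h1.1 h2.1 h3.1 h2.2 h3.2)
      rwa [Finset.card_powersetCard, Finset.card_sdiff_of_subset h2.1, hh.2, h2.2,
        smul_eq_mul] at this
    have := Finset.card_nsmul_le_sum _ _ _ step2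
    rwa [Finset.card_powersetCard, hh.2, smul_eq_mul, ← mul_assoc] at this
  have := Finset.card_nsmul_le_sum _ _ _ step
  rw [Finset.card_powersetCard, Finset.card_sdiff_of_subset hh.1, hh.2, smul_eq_mul] at this
  calc _ = (P.card - k).choose s * (k.choose s * (k - s).choose s * ∏ p ∈ h, (p - 3)) := by ring
    _ ≤ _ := this

end Pool.Agent.Lib.MP_abd417_co
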