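import Mathlib

/-! Chebyshev-type lower bound for primes congruent to 1 modulo 4. -/

namespace Pool.Agent.Lib.MP_abd417_co

open Finset Real ArithmeticFunction

/-- the non-principal character modulo 4, with real values -/
noncomputable def chi (n : ℕ) : ℝ := ((ZMod.χ₄ (n : ZMod 4) : ℤ) : ℝ)

lemma chi_mul (a b : ℕ) : chi (a * b) = chi a * chi b := by
  unfold chi
  rw [Nat.cast_mul, map_mul, Int.cast_mul]

lemma chi_eq (n : ℕ) : chi n = if n % 2 = 0 then 0 else if n % 4 = 1 then 1 else -1 := by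
  unfold chi
  rw [ZMod.χ₄_nat_eq_if_mod_four]
  split_ifs <;> simp

lemma sum_chi (N : ℕ) :
    ∑ m ∈ Ioc 0 N, chi m = if N % 4 = 1 ∨ N % 4 = 2 then 1 else 0 := by
  induction N with
  | zero => simp
  | succ n ih =>
    rw [Finset.sum_Ioc_succ_top (Nat.zero_le n), ih, chi_eq]
    split_ifs <;> first | omega | norm_num

lemma sum_chi_log_aux (k : ℕ) : 0 ≤ ∑ n ∈ Ioc 0 (4 * k + 1), chi n * Real.log n := by
  induction k with
  | zero => simp
  | succ k ih =>
    have e : 4 * (k + 1) + 1 = 4 * k + 1 + 1 + 1 + 1 + 1 := by ring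
    rw [e, Finset.sum_Ioc_succ_top (by omega), Finset.sum_Ioc_succ_top (by omega),
      Finset.sum_Ioc_succ_top (by omega), Finset.sum_Ioc_succ_top (by omega)]
    have h1 : chi (4 * k + 1 + 1) = 0 := by rw [chi_eq]; split_ifs <;> first | omega | norm_num
    have h2 : chi (4 * k + 1 + 1 + 1) = -1 := by
      rw [chi_eq]; split_ifs <;> first | omega | norm_num
    have h3 : chi (4 * k + 1 + 1 + 1 + 1) = 0 := by
      rw [chi_eq]; split_ifs <;> first | omega | norm_num
    have h4 : chi (4 * k + 1 + 1 + 1 + 1 + 1) = 1 := by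
      rw [chi_eq]; split_ifs <;> first | omega | norm_num
    rw [h1, h2, h3, h4]
    have : Real.log ((4 * k + 1 + 1 + 1 : ℕ) : ℝ) ≤ Real.log ((4 * k + 1 + 1 + 1 + 1 + 1 : ℕ) : ℝ) := by
      apply Real.log_le_log
      · positivity
      · exact_mod_cast (by omega)
    linarith

lemma sum_chi_log (N : ℕ) (hN : 1 ≤ N) :
    -Real.log N ≤ ∑ n ∈ Ioc 0 N, chi n * Real.log n := by
  obtain ⟨k, hk⟩ : ∃ k, N = 4 * k + 1 ∨ N = 4 * k + 1 + 1 ∨ N = 4 * k + 1 + 1 + 1 ∨
      N = 4 * k + 1 + 1 + 1 + 1 := ⟨(N - 1) / 4, by omega⟩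
  have h0 := sum_chi_log_aux k
  have h1 : chi (4 * k + 1 + 1) = 0 := by rw [chi_eq]; split_ifs <;> first | omega | norm_num
  have h2 : chi (4 * k + 1 + 1 + 1) = -1 := by
    rw [chi_eq]; split_ifs <;> first | omega | norm_num
  have h3 : chi (4 * k + 1 + 1 + 1 + 1) = 0 := by
    rw [chi_eq]; split_ifs <;> first | omega | norm_num
  have hl : 0 ≤ Real.log N := Real.log_natCast_nonneg N
  rcases hk with rfl | rfl | rfl | rfl
  · linarith
  · rw [Finset.sum_Ioc_succ_top (by omega), h1]; linarith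
  · rw [Finset.sum_Ioc_succ_top (by omega), Finset.sum_Ioc_succ_top (by omega), h1, h2]; linarith
  · rw [Finset.sum_Ioc_succ_top (by omega), Finset.sum_Ioc_succ_top (by omega),
      Finset.sum_Ioc_succ_top (by omega), h1, h2, h3]
    have : Real.log ((4 * k + 1 + 1 + 1 : ℕ) : ℝ) ≤ Real.log ((4 * k + 1 + 1 + 1 + 1 : ℕ) : ℝ) := by
      apply Real.log_le_log
      · positivity
      · exact_mod_cast (by omega)
    linarith

/-- the convolution identity -/
lemma sum_chi_log_eq (N : ℕ) :
    ∑ n ∈ Ioc 0 N, chi n * Real.log n =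
      ∑ d ∈ Ioc 0 N, (chi d * vonMangoldt d) * ∑ m ∈ Ioc 0 (N / d), chi m := by
  let f : ArithmeticFunction ℝ := ⟨fun d => chi d * vonMangoldt d, by simp⟩
  let g : ArithmeticFunction ℝ := ⟨fun d => chi d, by simp [chi_eq]⟩
  have h := ArithmeticFunction.sum_Ioc_mul_eq_sum_sum f g N
  have e : ∀ n : ℕ, (f * g) n = chi n * Real.log n := by
    intro n
    rw [ArithmeticFunction.mul_apply, ← vonMangoldt_sum, Finset.mul_sum,
      ← Nat.sum_divisorsAntidiagonal (fun a b => chi n * vonMangoldt a)]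
    refine Finset.sum_congr rfl fun x hx => ?_
    have := (Nat.mem_divisorsAntidiagonal.mp hx).1
    show chi x.1 * vonMangoldt x.1 * chi x.2 = _
    rw [← this, chi_mul]; ring
  simp_rw [e] at h
  exact h

/-- primes congruent to one modulo four up to `N` -/
def primes1 (N : ℕ) : Finset ℕ := (Ioc 0 N).filter (fun p => p.Prime ∧ p % 4 = 1)

lemma primes1_bound (N : ℕ) (hN : 6 ≤ N) :
    Chebyshev.theta N - Chebyshev.theta ((N / 3 : ℕ) : ℝ) - Real.log N ≤
      2 * ((primes1 N).card * Real.log N + (Chebyshev.psi N - Chebyshev.theta N)) := by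
  have h1 := sum_chi_log N (by omega)
  rw [sum_chi_log_eq] at h1
  -- pointwise comparison
  have key : ∀ d ∈ Ioc 0 N,
      (chi d * vonMangoldt d) * ∑ m ∈ Ioc 0 (N / d), chi m ≤
        2 * ((if d.Prime ∧ d % 4 = 1 then Real.log N else 0) +
          (vonMangoldt d - if d.Prime then Real.log d else 0)) -
        ((if d.Prime then Real.log d else 0) -
          (if d.Prime ∧ d ≤ N / 3 then Real.log d else 0)) := by
    intro d hd
    rw [Finset.mem_Ioc] at hd
    have hL : 0 ≤ vonMangoldt d := vonMangoldt_nonneg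
    have hlog : Real.log d ≤ Real.log N :=
      Real.log_le_log (by exact_mod_cast hd.1) (by exact_mod_cast hd.2)
    have hlog0 : 0 ≤ Real.log d := Real.log_natCast_nonneg d
    rw [sum_chi, chi_eq]
    by_cases hp : d.Prime
    · rw [vonMangoldt_apply_prime hp]
      by_cases h3 : d ≤ N / 3
      · simp only [hp, h3, true_and, and_self, if_true]
        split_ifs <;> first | omega | nlinarith
      · have hq : N / d = 1 ∨ N / d = 2 := by
          have a1 : 1 ≤ N / d := (Nat.le_div_iff_mul_le hd.1).2 (by omega)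
          have a2 : N / d < 3 := (Nat.div_lt_iff_lt_mul hd.1).2 (by omega)
          omega
        have hodd : d % 2 = 1 := by
          rcases hp.eq_two_or_odd with h | h
          · omega
          · exact h
        have : N / d % 4 = 1 ∨ N / d % 4 = 2 := by omega
        simp only [hp, h3, true_and, and_false, if_true, if_false, this]
        split_ifs <;> first | omega | nlinarith
    · simp only [hp, false_and, if_false]
      split_ifs <;> nlinarith
  have h2 := Finset.sum_le_sum key
  rw [Finset.sum_sub_distrib, ← Finset.mul_sum, Finset.sum_add_distrib, Finset.sum_sub_distrib,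
    Finset.sum_sub_distrib] at h2
  have e1 : ∑ d ∈ Ioc 0 N, (if d.Prime ∧ d % 4 = 1 then Real.log N else 0) =
      (primes1 N).card * Real.log N := by
    rw [← Finset.sum_filter, Finset.sum_const, nsmul_eq_mul]; rfl
  have e2 : ∑ d ∈ Ioc 0 N, vonMangoldt d = Chebyshev.psi N := by
    simp [Chebyshev.psi]
  have e3 : ∑ d ∈ Ioc 0 N, (if d.Prime then Real.log d else 0) = Chebyshev.theta N := by
    rw [← Finset.sum_filter]; simp [Chebyshev.theta]
  have e4 : ∑ d ∈ Ioc 0 N, (if d.Prime ∧ d ≤ N / 3 then Real.log d else 0) =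
      Chebyshev.theta ((N / 3 : ℕ) : ℝ) := by
    rw [← Finset.sum_filter, Chebyshev.theta, Nat.floor_natCast]
    refine Finset.sum_congr ?_ fun _ _ => rfl
    ext d
    simp only [Finset.mem_filter, Finset.mem_Ioc]
    constructor
    · rintro ⟨⟨a, _⟩, b, c⟩; exact ⟨⟨a, c⟩, b⟩
    · rintro ⟨⟨a, c⟩, b⟩; exact ⟨⟨a, by omega⟩, b, c⟩
  rw [e1, e2, e3, e4] at h2
  linarith

/-- Chebyshev-type lower bound -/
theorem eventually_primes1 :
    ∀ᶠ N : ℕ in Filter.atTop, (N : ℝ) / 10 ≤ (primes1 N).card * Real.log N := by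
  have hlo : (fun x : ℝ => Real.log x) =o[Filter.atTop] fun x => x ^ (1 / 2 : ℝ) :=
    isLittleO_log_rpow_atTop (by norm_num)
  have h1 := (hlo.comp_tendsto tendsto_natCast_atTop_atTop).bound (c := 1 / 1000) (by norm_num)
  filter_upwards [h1, Filter.eventually_ge_atTop 10000] with N hN h6
  have hb := primes1_bound N (by omega)
  have hNr : (10000 : ℝ) ≤ N := by exact_mod_cast h6
  have hpos : (0 : ℝ) < N := by linarith
  have hl0 : 0 ≤ Real.log N := Real.log_natCast_nonneg N
  simp only [Function.comp, Real.norm_eq_abs] at hN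
  rw [abs_of_nonneg hl0, abs_of_nonneg (by positivity), ← Real.sqrt_eq_rpow] at hN
  have hs : Real.sqrt N * Real.sqrt N = N := Real.mul_self_sqrt hpos.le
  have hs1 : 1 ≤ Real.sqrt N := by
    rw [Real.one_le_sqrt]; linarith
  have t1 := Chebyshev.theta_ge N
  have t2 : Chebyshev.theta ((N / 3 : ℕ) : ℝ) ≤ Real.log 4 * ((N : ℝ) / 3) := by
    refine (Chebyshev.theta_le_log4_mul_x (by positivity)).trans ?_
    gcongr
    exact Nat.cast_div_le
  have t3 := Chebyshev.psi_sub_theta_le (x := N) (by linarith)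
  have t4 : Real.log (N + 1) ≤ 2 * Real.log N := by
    rw [← Real.log_rpow hpos]
    apply Real.log_le_log (by positivity)
    rw [Real.rpow_two]; nlinarith
  have t5 : Real.log 4 = 2 * Real.log 2 := by
    rw [show (4 : ℝ) = 2 ^ 2 by norm_num, Real.log_pow]; norm_num
  have t6 := Real.log_two_gt_d9
  have t7 : Real.sqrt N * Real.log N ≤ N / 1000 := by nlinarith
  have t8 : Real.log N ≤ N / 1000 := by nlinarith
  rw [t5] at t2
  nlinarith

end Pool.Agent.Lib.MP_abd417_co
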