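import Pool.Agent.Lib.MP_abd417_co.Frames
import Pool.Agent.Lib.MP_abd417_co.Primes

/-! Choice of parameters. -/

namespace Pool.Agent.Lib.MP_abd417_co

open Finset

lemma exists_io (p : ℕ) : ∃ i : ℕ, p.Prime → p % 4 = 1 →
    (1 < i ∧ i < p) ∧ (p : ℤ) ∣ (i : ℤ) ^ 2 + 1 := by
  by_cases hp : p.Prime
  swap
  · exact ⟨0, fun h => absurd h hp⟩
  by_cases h4 : p % 4 = 1
  swap
  · exact ⟨0, fun _ h => absurd h h4⟩
  have : Fact p.Prime := ⟨hp⟩
  obtain ⟨y, hy⟩ := (ZMod.exists_sq_eq_neg_one_iff (p := p)).2 (by omega)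
  have hd : (p : ℤ) ∣ (y.val : ℤ) ^ 2 + 1 := by
    rw [← ZMod.intCast_zmod_eq_zero_iff_dvd]
    push_cast
    rw [ZMod.natCast_zmod_val]
    linear_combination -hy
  refine ⟨y.val, fun _ _ => ⟨⟨?_, ZMod.val_lt y⟩, hd⟩⟩
  have h2 := hp.two_le
  by_contra hlt
  have : y.val = 0 ∨ y.val = 1 := by omega
  rcases this with h | h
  · rw [h] at hd
    have := Int.le_of_dvd (by norm_num) hd
    norm_num at this
    omega
  · rw [h] at hd
    have := Int.le_of_dvd (by norm_num) hd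
    norm_num at this
    omega

lemma choose_cube {j s x : ℕ} (hx : 1 ≤ x) (h : 27 * s ^ 3 * x ^ 2 ≤ j ^ 3) :
    3 ^ s * x ^ (2 * s) ≤ j.choose s * (2 * j).choose s * (2 * j - s).choose s := by
  rcases Nat.eq_zero_or_pos s with rfl | hs
  · simp
  have h2 : 2 * s ≤ j := by
    have : (2 * s) ^ 3 ≤ j ^ 3 := by
      have a : 1 ≤ x ^ 2 := Nat.one_le_pow _ _ hx
      have b : 27 * s ^ 3 * 1 ≤ 27 * s ^ 3 * x ^ 2 := Nat.mul_le_mul_left _ a
      have c : (2 * s) ^ 3 = 8 * s ^ 3 := by ring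
      omega
    exact (Nat.pow_le_pow_iff_left (by norm_num)).1 this
  have a1 : j ^ s ≤ (2 * s) ^ s * j.choose s := by
    calc j ^ s ≤ (2 * (j + 1 - s)) ^ s := Nat.pow_le_pow_left (by omega) _
      _ = 2 ^ s * (j + 1 - s) ^ s := mul_pow _ _ _
      _ ≤ 2 ^ s * j.descFactorial s := Nat.mul_le_mul_left _ (Nat.pow_sub_le_descFactorial _ _)
      _ = 2 ^ s * (s.factorial * j.choose s) := by rw [Nat.descFactorial_eq_factorial_mul_choose]
      _ ≤ 2 ^ s * (s ^ s * j.choose s) := by gcongr; exact Nat.factorial_le_pow s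
      _ = (2 * s) ^ s * j.choose s := by rw [mul_pow]; ring
  have a2 : j.choose s ≤ (2 * j).choose s := Nat.choose_le_choose _ (by omega)
  have a3 : j.choose s ≤ (2 * j - s).choose s := Nat.choose_le_choose _ (by omega)
  have a4 : ((2 * s) ^ s) ^ 3 * (3 ^ s * x ^ (2 * s)) ≤ ((2 * s) ^ s) ^ 3 * (j.choose s) ^ 3 := by
    calc ((2 * s) ^ s) ^ 3 * (3 ^ s * x ^ (2 * s)) = ((2 * s) ^ 3 * (3 * x ^ 2)) ^ s := by
          rw [mul_pow ((2 * s) ^ 3), mul_pow 3, ← pow_mul, ← pow_mul, ← pow_mul, mul_comm s 3]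
      _ ≤ (j ^ 3) ^ s := Nat.pow_le_pow_left (by nlinarith [Nat.zero_le (s ^ 3 * x ^ 2)]) _
      _ = (j ^ s) ^ 3 := by rw [← pow_mul, ← pow_mul, mul_comm]
      _ ≤ ((2 * s) ^ s * j.choose s) ^ 3 := Nat.pow_le_pow_left a1 _
      _ = _ := mul_pow _ _ _
  have a5 := Nat.le_of_mul_le_mul_left a4 (by positivity)
  calc _ ≤ (j.choose s) ^ 3 := a5
    _ = j.choose s * j.choose s * j.choose s := by ring
    _ ≤ _ := by gcongr

lemma prod_compare {j : ℕ} (hj : 1 ≤ j) {h : Finset ℕ} (hc : h.card = 2 * j)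
    (hp : ∀ p ∈ h, 30 * j ≤ p) : ∏ p ∈ h, (p + 2) ≤ 2 * ∏ p ∈ h, (p - 3) := by
  have hj' : (1 : ℝ) ≤ j := by exact_mod_cast hj
  have a1 : ∏ p ∈ h, ((1 - 1 / (6 * (j : ℝ))) * ((p + 2 : ℕ) : ℝ)) ≤
      ∏ p ∈ h, ((p - 3 : ℕ) : ℝ) := by
    refine Finset.prod_le_prod (fun p _ => mul_nonneg ?_ (by positivity)) fun p hh => ?_
    · rw [sub_nonneg, div_le_one (by positivity)]; linarith
    · have b := hp p hh
      have b' : 30 * (j : ℝ) ≤ p := by exact_mod_cast b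
      rw [Nat.cast_sub (by omega)]
      push_cast
      have : 1 / (6 * (j : ℝ)) * (p + 2) ≥ 5 := by
        rw [ge_iff_le, div_mul_eq_mul_div, le_div_iff₀ (by positivity)]
        linarith
      linarith
  rw [Finset.prod_mul_distrib, Finset.prod_const, hc] at a1
  have a2 : (1 : ℝ) / 2 ≤ (1 - 1 / (6 * (j : ℝ))) ^ (2 * j) := by
    have := one_add_mul_le_pow (a := -(1 / (6 * (j : ℝ)))) (by
      have : 1 / (6 * (j : ℝ)) ≤ 1 := by rw [div_le_one (by positivity)]; linarith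
      linarith) (2 * j)
    have e : ((2 * j : ℕ) : ℝ) * -(1 / (6 * (j : ℝ))) = -(1 / 3) := by
      push_cast; field_simp; norm_num
    rw [e] at this
    calc (1 : ℝ) / 2 ≤ 1 + -(1 / 3) := by norm_num
      _ ≤ _ := this
  have a3 : (0 : ℝ) ≤ ∏ p ∈ h, ((p + 2 : ℕ) : ℝ) := Finset.prod_nonneg fun _ _ => by positivity
  have : ∏ p ∈ h, ((p + 2 : ℕ) : ℝ) ≤ 2 * ∏ p ∈ h, ((p - 3 : ℕ) : ℝ) := by nlinarith
  exact_mod_cast this

theorem finite_form {j s x n : ℕ} (hj : 1 ≤ j) (hx : 33 * j ≤ (primes1 x).card)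
    (hs : 27 * s ^ 3 * x ^ 2 ≤ j ^ 3) (hn : 27 * (2 ^ (3 * j) * (x + 2) ^ (2 * j)) ≤ n) :
    ∃ V : Finset E3, V.card = n ∧ (∀ v ∈ V, ‖v‖ = 1) ∧ n * 3 ^ s ≤ 2916 * (bases V).ncard := by
  have hc : 3 * j ≤ (primes1 x \ Finset.range (30 * j)).card := by
    have := Finset.le_card_sdiff (Finset.range (30 * j)) (primes1 x)
    rw [Finset.card_range] at this
    omega
  obtain ⟨P, hPs, hPc⟩ := Finset.exists_subset_card_eq hc
  have hP : ∀ p ∈ P, p.Prime ∧ p % 4 = 1 ∧ 30 * j ≤ p ∧ p ≤ x := by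
    intro p hp
    have := hPs hp
    simp only [primes1, Finset.mem_sdiff, Finset.mem_filter, Finset.mem_Ioc, Finset.mem_range,
      not_lt] at this
    exact ⟨this.1.2.1, this.1.2.2, this.2, this.1.1.2⟩
  have hx1 : 1 ≤ x := by
    obtain ⟨p, hp⟩ : P.Nonempty := Finset.card_pos.1 (by omega)
    have := hP p hp
    omega
  choose io hio using exists_io
  set N := 27 * ∑ h ∈ P.powersetCard (2 * j), ∏ p ∈ h, (p + 2) with hN
  have hN0 : 0 < N := by
    refine Nat.mul_pos (by norm_num) (Finset.sum_pos (fun h _ => ?_) ?_)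
    · exact Finset.prod_pos fun _ _ => by omega
    · exact Finset.powersetCard_nonempty.2 (by omega)
  have hNn : N ≤ n := by
    refine le_trans (Nat.mul_le_mul_left _ ?_) hn
    refine (Finset.sum_le_card_nsmul _ _ ((x + 2) ^ (2 * j)) fun h hh => ?_).trans ?_
    · rw [Finset.mem_powersetCard] at hh
      rw [← hh.2]
      exact Finset.prod_le_pow_card _ _ _ fun p hp => by have := hP p (hh.1 hp); omega
    · rw [Finset.card_powersetCard, hPc, smul_eq_mul]
      exact Nat.mul_le_mul_right _ (Nat.choose_le_two_pow _ _)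
  obtain ⟨V, hV1, hV2, hV3⟩ := main_construction (P := P) (io := io)
    (fun p hp => (hio p (hP p hp).1 (hP p hp).2.1).1)
    (fun p hp => ⟨(hP p hp).1, by have := (hP p hp).2.1; omega,
      (hio p (hP p hp).1 (hP p hp).2.1).2⟩) (2 * j) s (n / N) n (Nat.div_mul_le_self n N)
  refine ⟨V, hV1, hV2, ?_⟩
  have c1 := card_codes (P := P) (io := io) (fun p hp => (hio p (hP p hp).1 (hP p hp).2.1).1)
    (x := x) (fun p hp => by have := hP p hp; omega) (2 * j) s
  rw [hPc, show 3 * j - 2 * j = j by omega] at c1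
  have c2 := choose_cube hx1 hs
  have c3 : 3 ^ s * ∑ h ∈ P.powersetCard (2 * j), ∏ p ∈ h, (p - 3) ≤
      (codes P io (2 * j) s).card := by
    refine Nat.le_of_mul_le_mul_left (c := x ^ (2 * s)) (le_trans ?_ c1) (by positivity)
    rw [← mul_assoc, mul_comm (x ^ (2 * s))]
    exact Nat.mul_le_mul_right _ c2
  have c4 : N ≤ 54 * ∑ h ∈ P.powersetCard (2 * j), ∏ p ∈ h, (p - 3) := by
    rw [hN, show 54 = 27 * 2 by norm_num, mul_assoc]
    refine Nat.mul_le_mul_left _ ?_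
    rw [Finset.mul_sum]
    refine Finset.sum_le_sum fun h hh => ?_
    rw [Finset.mem_powersetCard] at hh
    exact prod_compare hj hh.2 fun p hp => (hP p (hh.1 hp)).2.2.1
  have c5 : n ≤ 2 * (n / N) * N := by
    have a := Nat.div_add_mod n N
    have b := Nat.mod_lt n hN0
    have c : 1 ≤ n / N := (Nat.one_le_div_iff hN0).2 hNn
    nlinarith
  calc n * 3 ^ s ≤ 2 * (n / N) * (54 * ∑ h ∈ P.powersetCard (2 * j), ∏ p ∈ h, (p - 3)) * 3 ^ s := by
        refine Nat.mul_le_mul_right _ (c5.trans ?_)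
        exact Nat.mul_le_mul_left _ c4
    _ = 108 * ((n / N) * (3 ^ s * ∑ h ∈ P.powersetCard (2 * j), ∏ p ∈ h, (p - 3))) := by ring
    _ ≤ 108 * ((n / N) * (codes P io (2 * j) s).card) := by gcongr
    _ ≤ 108 * (27 * (bases V).ncard) := by gcongr
    _ = _ := by ring

theorem asymptotic_form : ∀ᶠ n : ℕ in Filter.atTop,
    ∃ V : Finset E3, V.card = n ∧ (∀ v ∈ V, ‖v‖ = 1) ∧
      (n : ℝ) * Real.exp (1 / 6000 * (Real.log n) ^ (1 / 3 : ℝ) / Real.log (Real.log n)) ≤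
        ((bases V).ncard : ℝ) := by
  have hT : Filter.Tendsto (fun n : ℕ => Real.log n) Filter.atTop Filter.atTop :=
    Real.tendsto_log_atTop.comp tendsto_natCast_atTop_atTop
  have h1 := (tendsto_nat_floor_atTop.comp hT).eventually eventually_primes1
  have hlo : (fun x : ℝ => Real.log x) =o[Filter.atTop] fun x => x ^ (1 / 3 : ℝ) :=
    isLittleO_log_rpow_atTop (by norm_num)
  have h2 := (hlo.comp_tendsto hT).bound (c := 1 / 60000) (by norm_num)
  filter_upwards [h1, h2, hT.eventually_ge_atTop 100, Filter.eventually_ge_atTop 1]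
    with n h1 h2 hL hn1
  simp only [Function.comp, Real.norm_eq_abs] at h1 h2
  have hnpos : (0 : ℝ) < n := by exact_mod_cast hn1
  have hexp : Real.exp (Real.log n) = n := Real.exp_log hnpos
  generalize Real.log n = L at *
  have hL0 : 0 < L := by linarith
  have hl1 : 1 ≤ Real.log L := by
    rw [Real.le_log_iff_exp_le hL0]
    have := Real.exp_one_lt_d9
    linarith
  set t := L ^ (1 / 3 : ℝ) with ht
  have ht0 : 0 < t := Real.rpow_pos_of_pos hL0 _
  have ht3 : t ^ 3 = L := by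
    rw [ht, ← Real.rpow_natCast, ← Real.rpow_mul hL0.le]; norm_num
  rw [abs_of_nonneg (by linarith), abs_of_nonneg ht0.le] at h2
  set l := Real.log L with hl
  have hl0 : 0 < l := by linarith
  have ht1 : 60000 ≤ t := by linarith
  set x := ⌊L⌋₊ with hx
  have hx1 : (x : ℝ) ≤ L := Nat.floor_le hL0.le
  have hx2 : L < x + 1 := Nat.lt_floor_add_one L
  set j := ⌊L / (1000 * l)⌋₊ with hj
  have hj1 : (j : ℝ) ≤ L / (1000 * l) := Nat.floor_le (by positivity)
  have hj2 : L / (1000 * l) < j + 1 := Nat.lt_floor_add_one _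
  set s := ⌊(j : ℝ) / (3 * t ^ 2)⌋₊ with hs
  have hs1 : (s : ℝ) ≤ j / (3 * t ^ 2) := Nat.floor_le (by positivity)
  have hs2 : (j : ℝ) / (3 * t ^ 2) < s + 1 := Nat.lt_floor_add_one _
  rw [le_div_iff₀ (by positivity)] at hj1 hs1
  rw [div_lt_iff₀ (by positivity)] at hj2 hs2
  have hjpos : 1 ≤ j := by
    by_contra h0
    have : j = 0 := by omega
    rw [this] at hj2
    have : t ^ 3 ≥ t := by nlinarith [sq_nonneg t]
    norm_num at hj2
    nlinarith
  suffices hh : 33 * j ≤ (primes1 x).card ∧ 27 * s ^ 3 * x ^ 2 ≤ j ^ 3 ∧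
      27 * (2 ^ (3 * j) * (x + 2) ^ (2 * j)) ≤ n by
    obtain ⟨V, hV1, hV2, hV3⟩ := finite_form (j := j) (s := s) (x := x) (n := n) hjpos
      hh.1 hh.2.1 hh.2.2
    refine ⟨V, hV1, hV2, ?_⟩
    have a1 : (n : ℝ) * 3 ^ s ≤ 2916 * (bases V).ncard := by exact_mod_cast hV3
    have a2 : Real.exp s ≤ 3 ^ s := by
      rw [← Real.exp_one_pow]
      exact pow_le_pow_left₀ (Real.exp_pos 1).le (by linarith [Real.exp_one_lt_d9]) _
    have a3 : (2916 : ℝ) ≤ Real.exp 8 := by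
      have : Real.exp 8 = Real.exp 1 ^ 8 := by rw [Real.exp_one_pow]; norm_num
      rw [this]
      calc (2916 : ℝ) ≤ 2.7182818283 ^ 8 := by norm_num
        _ ≤ _ := pow_le_pow_left₀ (by norm_num) Real.exp_one_gt_d9.le _
    have a4 : 1 / 6000 * t / l + 8 ≤ s := by
      have b1 : t ^ 3 < ((s + 1) * (3 * t ^ 2) + 1) * (1000 * l) := by
        rw [ht3]; nlinarith
      have b2 : t ^ 2 * t < t ^ 2 * ((s + 2) * (3000 * l)) := by
        have : 1 ≤ t ^ 2 := by nlinarith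
        nlinarith
      have b3 : t < (s + 2) * (3000 * l) := lt_of_mul_lt_mul_left b2 (by positivity)
      rw [div_add' _ _ _ hl0.ne', div_le_iff₀ hl0]
      nlinarith
    have a5 : Real.exp (1 / 6000 * t / l) * 2916 ≤ 3 ^ s := by
      calc _ ≤ Real.exp (1 / 6000 * t / l) * Real.exp 8 := by gcongr
        _ = Real.exp (1 / 6000 * t / l + 8) := (Real.exp_add _ _).symm
        _ ≤ Real.exp s := Real.exp_le_exp.2 a4
        _ ≤ _ := a2
    nlinarith
  refine ⟨?_, ?_, ?_⟩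
  · have hxpos : (0 : ℝ) < x := by linarith
    have b1 : Real.log x ≤ l := Real.log_le_log hxpos hx1
    have b2 : (x : ℝ) / 10 ≤ (primes1 x).card * l := h1.trans (by gcongr)
    have b3 : (33 * j : ℝ) * l ≤ (primes1 x).card * l := by nlinarith
    exact_mod_cast le_of_mul_le_mul_right b3 hl0
  · have b1 : ((s : ℝ) * (3 * t ^ 2)) ^ 3 ≤ j ^ 3 := pow_le_pow_left₀ (by positivity) hs1 _
    have b2 : (x : ℝ) ^ 2 ≤ L ^ 2 := pow_le_pow_left₀ (by positivity) hx1 _
    have b3 : (27 * s ^ 3 * x ^ 2 : ℝ) ≤ j ^ 3 := by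
      calc (27 * s ^ 3 * x ^ 2 : ℝ) ≤ 27 * s ^ 3 * L ^ 2 := by gcongr
        _ = ((s : ℝ) * (3 * t ^ 2)) ^ 3 := by rw [← ht3]; ring
        _ ≤ _ := b1
    exact_mod_cast b3
  · have b1 : (2 : ℝ) ^ (3 * j) ≤ L ^ (3 * j) := pow_le_pow_left₀ (by norm_num) (by linarith) _
    have b2 : ((x : ℝ) + 2) ^ (2 * j) ≤ (L ^ 2) ^ (2 * j) :=
      pow_le_pow_left₀ (by positivity) (by nlinarith) _
    have b3 : L ^ (3 * j) * (L ^ 2) ^ (2 * j) = Real.exp (7 * j * l) := by
      rw [← pow_mul, ← pow_add, show (7 * j * l : ℝ) = ((3 * j + 2 * (2 * j) : ℕ) : ℝ) * l by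
        push_cast; ring, Real.exp_nat_mul, hl, Real.exp_log hL0]
    have b4 : (27 : ℝ) ≤ Real.exp 26 := by
      have := Real.add_one_le_exp (26 : ℝ)
      linarith
    have b5 : (27 * (2 ^ (3 * j) * (x + 2) ^ (2 * j)) : ℝ) ≤ n := by
      calc (27 * (2 ^ (3 * j) * (x + 2) ^ (2 * j)) : ℝ)
          ≤ Real.exp 26 * (L ^ (3 * j) * (L ^ 2) ^ (2 * j)) := by gcongr
        _ = Real.exp (26 + 7 * j * l) := by rw [b3, Real.exp_add]
        _ ≤ Real.exp L := Real.exp_le_exp.2 (by nlinarith)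
        _ = n := hexp
    exact_mod_cast b5

end Pool.Agent.Lib.MP_abd417_co
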