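import Mathlib

/-! Upper bound for the number of integer points on the sphere of squarefree radius. -/

namespace Pool.Agent.Lib.MP_abd417_co

open Finset

/-- integer points on the sphere of radius `H` -/
noncomputable def sph (H : ℕ) : Finset (Fin 3 → ℤ) :=
  (Fintype.piFinset fun _ => Finset.Icc (-(H : ℤ)) H).filter
    (fun u => u 0 ^ 2 + u 1 ^ 2 + u 2 ^ 2 = (H : ℤ) ^ 2)

lemma mem_sph (H : ℕ) (u : Fin 3 → ℤ) :
    u ∈ sph H ↔ u 0 ^ 2 + u 1 ^ 2 + u 2 ^ 2 = (H : ℤ) ^ 2 := by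
  unfold sph
  rw [Finset.mem_filter, Fintype.mem_piFinset]
  refine ⟨fun h => h.2, fun h => ⟨fun i => ?_, h⟩⟩
  have hH : (0 : ℤ) ≤ H := Int.natCast_nonneg H
  have : u i ^ 2 ≤ (H : ℤ) ^ 2 := by
    fin_cases i <;> simp <;> nlinarith [sq_nonneg (u 0), sq_nonneg (u 1), sq_nonneg (u 2)]
  rw [Finset.mem_Icc]
  exact abs_le_of_sq_le_sq' this hH

/-- the class of a vector modulo `p`: zero, or the isotropic line through it -/
noncomputable def cls (p : ℕ) (i : ℤ) (u : Fin 3 → ℤ) : ℕ :=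
  open Classical in
  if ∀ k, (u k : ZMod p) = 0 then p + 1
  else if (u 0 : ZMod p) + i * u 1 = 0 then p
  else ((u 2 : ZMod p) * ((u 0 : ZMod p) + i * u 1)⁻¹).val

lemma cls_lt (p : ℕ) (hp : p.Prime) (i : ℤ) (u : Fin 3 → ℤ) : cls p i u < p + 2 := by
  have : NeZero p := ⟨hp.ne_zero⟩
  unfold cls
  split_ifs
  · omega
  · omega
  · exact (ZMod.val_lt _).trans (by omega)

lemma prop_of_field {F : Type*} [Field F] (h2 : (2 : F) ≠ 0) {i x y z x' y' z' : F}
    (hi : i ^ 2 + 1 = 0) (h : x ^ 2 + y ^ 2 + z ^ 2 = 0) (h' : x' ^ 2 + y' ^ 2 + z' ^ 2 = 0)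
    (hn : ¬ (x = 0 ∧ y = 0 ∧ z = 0)) (hn' : ¬ (x' = 0 ∧ y' = 0 ∧ z' = 0))
    (hc : (x + i * y = 0 ∧ x' + i * y' = 0) ∨
      (x + i * y ≠ 0 ∧ x' + i * y' ≠ 0 ∧ z * (x + i * y)⁻¹ = z' * (x' + i * y')⁻¹)) :
    ∃ l : F, l ≠ 0 ∧ x = l * x' ∧ y = l * y' ∧ z = l * z' := by
  have hi0 : i ≠ 0 := by
    rintro rfl
    simp at hi
  rcases hc with ⟨a, a'⟩ | ⟨a, a', hs⟩
  · have hz : z = 0 := by
      have : z ^ 2 = 0 := by linear_combination h - (x - i * y) * a - y ^ 2 * hi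
      exact pow_eq_zero_iff (by norm_num) |>.1 this
    have hz' : z' = 0 := by
      have : z' ^ 2 = 0 := by linear_combination h' - (x' - i * y') * a' - y' ^ 2 * hi
      exact pow_eq_zero_iff (by norm_num) |>.1 this
    have hy : y ≠ 0 := by
      intro hy
      exact hn ⟨by simpa [hy] using a, hy, hz⟩
    have hy' : y' ≠ 0 := by
      intro hy
      exact hn' ⟨by simpa [hy] using a', hy, hz'⟩
    refine ⟨y / y', div_ne_zero hy hy', ?_, by field_simp, by simp [hz, hz']⟩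
    have e1 : x = -i * y := by linear_combination a
    have e2 : x' = -i * y' := by linear_combination a'
    rw [e1, e2]; field_simp
  · set α := x + i * y with hα
    set β := x' + i * y' with hβ
    set s := z' * β⁻¹ with hsd
    have e1 : z = s * α := by rw [← hs]; field_simp
    have e2 : z' = s * β := by rw [hsd]; field_simp
    have f1 : x - i * y = - s ^ 2 * α := by
      apply mul_left_cancel₀ a
      rw [e1] at h
      linear_combination h - y ^ 2 * hi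
    have f2 : x' - i * y' = - s ^ 2 * β := by
      apply mul_left_cancel₀ a'
      rw [e2] at h'
      linear_combination h' - y' ^ 2 * hi
    refine ⟨α / β, div_ne_zero a a', ?_, ?_, ?_⟩
    · rw [div_mul_eq_mul_div, eq_div_iff a']
      apply mul_left_cancel₀ h2
      linear_combination β * f1 - α * f2 - β * hα + α * hβ
    · rw [div_mul_eq_mul_div, eq_div_iff a']
      apply mul_left_cancel₀ (mul_ne_zero h2 hi0)
      linear_combination - β * f1 + α * f2 - β * hα + α * hβ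
    · rw [e1, e2]; field_simp

lemma sq_dvd_dot {p : ℕ} (hp : p.Prime) (hodd : p ≠ 2) {i : ℤ} (hi : (p : ℤ) ∣ i ^ 2 + 1)
    {u v : Fin 3 → ℤ} (hu : (p : ℤ) ^ 2 ∣ u 0 ^ 2 + u 1 ^ 2 + u 2 ^ 2)
    (hv : (p : ℤ) ^ 2 ∣ v 0 ^ 2 + v 1 ^ 2 + v 2 ^ 2) (hc : cls p i u = cls p i v) :
    (p : ℤ) ^ 2 ∣ u 0 * v 0 + u 1 * v 1 + u 2 * v 2 := by
  have : Fact p.Prime := ⟨hp⟩
  have hpz : Prime (p : ℤ) := Nat.prime_iff_prime_int.1 hp
  have hn2 : ¬ ((p : ℤ) ∣ 2) := by
    intro h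
    have h' : p ∣ 2 := by exact_mod_cast h
    exact hodd ((Nat.prime_dvd_prime_iff_eq hp Nat.prime_two).1 h')
  have h2 : (2 : ZMod p) ≠ 0 := by
    intro h
    apply hn2
    rw [← ZMod.intCast_zmod_eq_zero_iff_dvd]
    exact_mod_cast h
  have vlt : ∀ x : ZMod p, x.val < p := fun x => ZMod.val_lt x
  by_cases hu0 : ∀ k, (u k : ZMod p) = 0
  · have hv0 : ∀ k, (v k : ZMod p) = 0 := by
      by_contra hv0
      unfold cls at hc
      rw [if_pos hu0, if_neg hv0] at hc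
      split_ifs at hc
      · omega
      · have := vlt ((v 2 : ZMod p) * ((v 0 : ZMod p) + i * v 1)⁻¹)
        omega
    simp only [ZMod.intCast_zmod_eq_zero_iff_dvd] at hu0 hv0
    rw [pow_two]
    exact ((mul_dvd_mul (hu0 0) (hv0 0)).add (mul_dvd_mul (hu0 1) (hv0 1))).add
      (mul_dvd_mul (hu0 2) (hv0 2))
  have hv0 : ¬ ∀ k, (v k : ZMod p) = 0 := by
    intro hv0
    unfold cls at hc
    rw [if_neg hu0, if_pos hv0] at hc
    split_ifs at hc
    · omega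
    · have := vlt ((u 2 : ZMod p) * ((u 0 : ZMod p) + i * u 1)⁻¹)
      omega
  have cast0 : ∀ w : Fin 3 → ℤ, (p : ℤ) ^ 2 ∣ w 0 ^ 2 + w 1 ^ 2 + w 2 ^ 2 →
      (w 0 : ZMod p) ^ 2 + (w 1 : ZMod p) ^ 2 + (w 2 : ZMod p) ^ 2 = 0 := by
    intro w hw
    have : (p : ℤ) ∣ w 0 ^ 2 + w 1 ^ 2 + w 2 ^ 2 := (Dvd.intro_left _ (pow_two _).symm).trans hw
    rw [← ZMod.intCast_zmod_eq_zero_iff_dvd] at this
    exact_mod_cast this
  have hi' : (i : ZMod p) ^ 2 + 1 = 0 := by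
    rw [← ZMod.intCast_zmod_eq_zero_iff_dvd] at hi
    exact_mod_cast hi
  obtain ⟨l, hl, e0, e1, e2⟩ := prop_of_field h2 hi' (cast0 u hu) (cast0 v hv)
    (fun h => hu0 fun k => by fin_cases k <;> simp [h.1, h.2.1, h.2.2])
    (fun h => hv0 fun k => by fin_cases k <;> simp [h.1, h.2.1, h.2.2])
    (by
      unfold cls at hc
      rw [if_neg hu0, if_neg hv0] at hc
      split_ifs at hc with a b b
      · exact Or.inl ⟨a, b⟩
      · have := vlt ((v 2 : ZMod p) * ((v 0 : ZMod p) + i * v 1)⁻¹)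
        omega
      · have := vlt ((u 2 : ZMod p) * ((u 0 : ZMod p) + i * u 1)⁻¹)
        omega
      · exact Or.inr ⟨a, b, ZMod.val_injective p hc⟩)
  obtain ⟨m, rfl⟩ := ZMod.intCast_surjective l
  have hm : ¬ (p : ℤ) ∣ m := by rwa [← ZMod.intCast_zmod_eq_zero_iff_dvd]
  have lift : ∀ a b : ℤ, (a : ZMod p) = m * b → ∃ w : ℤ, a = m * b + p * w := by
    intro a b hab
    have : (p : ℤ) ∣ a - m * b := by
      rw [← ZMod.intCast_zmod_eq_zero_iff_dvd]
      push_cast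
      rw [hab]; ring
    obtain ⟨w, hw⟩ := this
    exact ⟨w, by linarith⟩
  obtain ⟨w0, f0⟩ := lift _ _ e0
  obtain ⟨w1, f1⟩ := lift _ _ e1
  obtain ⟨w2, f2⟩ := lift _ _ e2
  obtain ⟨a, ha⟩ := hu
  obtain ⟨b, hb⟩ := hv
  have hp0 : (p : ℤ) ≠ 0 := hpz.ne_zero
  have h3 : (p : ℤ) ∣ 2 * (m * (v 0 * w0 + v 1 * w1 + v 2 * w2)) := by
    refine ⟨a - m ^ 2 * b - (w0 ^ 2 + w1 ^ 2 + w2 ^ 2), ?_⟩
    apply mul_left_cancel₀ hp0
    rw [f0, f1, f2] at ha
    linear_combination ha - m ^ 2 * hb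
  obtain ⟨c, hc⟩ := (hpz.dvd_or_dvd ((hpz.dvd_or_dvd h3).resolve_left hn2)).resolve_left hm
  refine ⟨m * b + c, ?_⟩
  rw [f0, f1, f2]
  linear_combination m * hb + p * hc

lemma eq_of_sign {H : ℕ} (hH : 0 < H) {u v : Fin 3 → ℤ} (hu : u ∈ sph H) (hv : v ∈ sph H)
    (hd : (H : ℤ) ^ 2 ∣ u 0 * v 0 + u 1 * v 1 + u 2 * v 2)
    (hs : ∀ k, SignType.sign (u k) = SignType.sign (v k)) : u = v := by
  rw [mem_sph] at hu hv
  have hH' : (0 : ℤ) < H := by exact_mod_cast hH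
  have key : ∀ k, 0 ≤ u k * v k ∧ (u k ≠ 0 → 0 < u k * v k) := by
    intro k
    have := hs k
    rcases lt_trichotomy (u k) 0 with h | h | h
    · rw [sign_neg h, eq_comm, sign_eq_neg_one_iff] at this
      have := mul_pos_of_neg_of_neg h this
      exact ⟨this.le, fun _ => this⟩
    · simp [h]
    · rw [sign_pos h, eq_comm, sign_eq_one_iff] at this
      have := mul_pos h this
      exact ⟨this.le, fun _ => this⟩
  have hpos : 0 < u 0 * v 0 + u 1 * v 1 + u 2 * v 2 := by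
    by_cases h0 : u 0 = 0
    · by_cases h1 : u 1 = 0
      · have h2 : u 2 ≠ 0 := by
          intro h2
          rw [h0, h1, h2] at hu
          nlinarith
        linarith [(key 0).1, (key 1).1, (key 2).2 h2]
      · linarith [(key 0).1, (key 1).2 h1, (key 2).1]
    · linarith [(key 0).2 h0, (key 1).1, (key 2).1]
  have hle := Int.le_of_dvd hpos hd
  have hz : (u 0 - v 0) ^ 2 + (u 1 - v 1) ^ 2 + (u 2 - v 2) ^ 2 ≤ 0 := by nlinarith
  have a0 : u 0 - v 0 = 0 := by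
    apply pow_eq_zero_iff (two_ne_zero) |>.1
    nlinarith [sq_nonneg (u 0 - v 0), sq_nonneg (u 1 - v 1), sq_nonneg (u 2 - v 2)]
  have a1 : u 1 - v 1 = 0 := by
    apply pow_eq_zero_iff (two_ne_zero) |>.1
    nlinarith [sq_nonneg (u 0 - v 0), sq_nonneg (u 1 - v 1), sq_nonneg (u 2 - v 2)]
  have a2 : u 2 - v 2 = 0 := by
    apply pow_eq_zero_iff (two_ne_zero) |>.1
    nlinarith [sq_nonneg (u 0 - v 0), sq_nonneg (u 1 - v 1), sq_nonneg (u 2 - v 2)]
  funext k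
  fin_cases k
  · simpa [sub_eq_zero] using a0
  · simpa [sub_eq_zero] using a1
  · simpa [sub_eq_zero] using a2

theorem card_sph_le (io : ℕ → ℤ) (h : Finset ℕ)
    (hh : ∀ p ∈ h, p.Prime ∧ p ≠ 2 ∧ (p : ℤ) ∣ io p ^ 2 + 1) :
    (sph (∏ p ∈ h, p)).card ≤ 27 * ∏ p ∈ h, (p + 2) := by
  have hH : 0 < ∏ p ∈ h, p := Finset.prod_pos fun p hp => (hh p hp).1.pos
  have hcard : ((Finset.univ : Finset (Fin 3 → SignType)) ×ˢ
      (h.pi fun p => Finset.range (p + 2))).card = 27 * ∏ p ∈ h, (p + 2) := by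
    rw [Finset.card_product, Finset.card_pi]
    simp only [Finset.card_range, Finset.card_univ, Fintype.card_pi, Finset.prod_const,
      Fintype.card_fin]
    rfl
  rw [← hcard]
  refine Finset.card_le_card_of_injOn
    (fun u => (fun k => SignType.sign (u k), fun p _ => cls p (io p) u)) ?_ ?_
  · intro u _
    simp only [Finset.coe_product, Set.mem_prod, Finset.mem_coe, Finset.mem_univ, true_and,
      Finset.mem_pi, Finset.mem_range]
    intro p hp
    exact cls_lt p (hh p hp).1 _ _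
  · intro u hu v hv huv
    simp only [Prod.mk.injEq] at huv
    refine eq_of_sign hH hu hv ?_ (fun k => congrFun huv.1 k)
    rw [Finset.mem_coe, mem_sph] at hu hv
    have hdiv : ∀ p ∈ h, (p : ℤ) ^ 2 ∣ (((∏ p ∈ h, p : ℕ)) : ℤ) ^ 2 := by
      intro p hp
      apply pow_dvd_pow_of_dvd
      exact_mod_cast Finset.dvd_prod_of_mem _ hp
    push_cast
    rw [← Finset.prod_pow]
    refine Finset.prod_dvd_of_coprime ?_ ?_
    · intro p hp q hq hpq
      apply IsCoprime.pow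
      rw [Nat.isCoprime_iff_coprime]
      exact (Nat.coprime_primes (hh p hp).1 (hh q hq).1).2 hpq
    · intro p hp
      exact sq_dvd_dot (hh p hp).1 (hh p hp).2.1 (hh p hp).2.2 (hu ▸ hdiv p hp) (hv ▸ hdiv p hp)
        (congrFun (congrFun huv.2 p) hp)

end Pool.Agent.Lib.MP_abd417_co
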