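import Pool.Agent.Lib.MP_abd417_co.Quat
import Pool.Agent.Lib.MP_abd417_co.Sphere
import Pool.Agent.Lib.MP_abd417_co.Codes

/-! The configuration of unit vectors and its orthonormal bases. -/

namespace Pool.Agent.Lib.MP_abd417_co

open Finset Quaternion

/-- Euclidean three-space -/
abbrev E3 := EuclideanSpace ℝ (Fin 3)

/-- the `j`-th column of the rotation given by `Q` -/
noncomputable def vec (Q : ℍ[ℤ]) (j : Fin 3) : E3 :=
  WithLp.toLp 2 fun i => ((rot Q i j : ℤ) : ℝ) / ((normSq Q : ℤ) : ℝ)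

lemma inner_vec {Q : ℍ[ℤ]} (hQ : normSq Q ≠ 0) (j k : Fin 3) :
    inner ℝ (vec Q j) (vec Q k) = if j = k then 1 else 0 := by
  have h := rot_orth Q j k
  have hQ' : ((normSq Q : ℤ) : ℝ) ≠ 0 := by exact_mod_cast hQ
  rw [PiLp.inner_apply, Fin.sum_univ_three]
  simp only [vec, RCLike.inner_apply, conj_trivial]
  have h' := congrArg (Int.cast : ℤ → ℝ) h
  push_cast at h'
  split_ifs at h' ⊢
  · field_simp
    linear_combination h'
  · field_simp
    linear_combination h'

lemma norm_vec {Q : ℍ[ℤ]} (hQ : normSq Q ≠ 0) (j : Fin 3) : ‖vec Q j‖ = 1 := by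
  have h := inner_vec hQ j j
  rw [if_pos rfl, real_inner_self_eq_norm_sq] at h
  have := norm_nonneg (vec Q j)
  nlinarith

lemma vec_injective {Q : ℍ[ℤ]} (hQ : normSq Q ≠ 0) : Function.Injective (vec Q) := by
  intro j k h
  by_contra hjk
  have a := inner_vec hQ j k
  have b := inner_vec hQ j j
  rw [if_neg hjk, ← h, b] at a
  simp at a

lemma mem_of_prime_dvd_prod {S : Finset ℕ} (hS : ∀ p ∈ S, p.Prime) {p : ℕ} (hp : p.Prime)
    (h : p ∣ ∏ q ∈ S, q) : p ∈ S := by
  obtain ⟨x, hx, hpx⟩ := (Prime.dvd_finsetProd_iff hp.prime _).1 h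
  exact (Nat.prime_dvd_prime_iff_eq hp (hS x hx)).1 hpx ▸ hx

lemma not_Dv_of_norm {S : Finset ℕ} (hS : ∀ p ∈ S, p.Prime) {p : ℕ} (hp : p ∈ S) {Q : ℍ[ℤ]}
    (hQ : normSq Q = ((∏ q ∈ S, q : ℕ) : ℤ)) : ¬ Dv p Q := by
  intro h
  have h1 := h.sq_dvd
  rw [hQ] at h1
  have h2 : p ^ 2 ∣ ∏ q ∈ S, q := by exact_mod_cast h1
  rw [← Finset.mul_prod_erase S _ hp, pow_two] at h2
  have h3 := Nat.dvd_of_mul_dvd_mul_left (hS p hp).pos h2
  have := mem_of_prime_dvd_prod (fun q hq => hS q (Finset.mem_of_mem_erase hq)) (hS p hp) h3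
  simp at this

/-- the set of orthonormal triples inside a finite set of vectors -/
def bases (V : Finset E3) : Set (Finset E3) :=
  {T | T ⊆ V ∧ T.card = 3 ∧ ∀ u ∈ T, ∀ v ∈ T, u ≠ v → inner ℝ u v = 0}

lemma sphere_infinite : Set.Infinite {v : E3 | ‖v‖ = 1} := by
  refine Set.infinite_of_injective_forall_mem
    (f := fun n : ℕ => vec (mkq (n + 1) 0 0 1) 0) ?_ ?_
  · intro a b h
    have h0 := congrArg (fun v : E3 => v 0) h
    simp only [vec, rot, normSq_def', mkq_re, mkq_imI, mkq_imJ, mkq_imK] at h0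
    simp only [Matrix.of_apply, Matrix.cons_val', Matrix.cons_val_zero, Matrix.cons_val_fin_one]
      at h0
    push_cast at h0
    rw [div_eq_div_iff (by positivity) (by positivity)] at h0
    have ha : (0 : ℝ) ≤ a := Nat.cast_nonneg a
    have hb : (0 : ℝ) ≤ b := Nat.cast_nonneg b
    have : ((a : ℝ) - b) * (a + b + 2) = 0 := by linear_combination (1 / 2 : ℝ) * h0
    rcases mul_eq_zero.1 this with h | h
    · exact_mod_cast sub_eq_zero.1 h
    · linarith
  · intro n
    apply norm_vec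
    rw [normSq_def']
    simp only [mkq_re, mkq_imI, mkq_imJ, mkq_imK]
    positivity

/-- padding and counting -/
lemma exists_config {A : Type*} (S : Finset A) (Q : A → ℍ[ℤ]) (hQ : ∀ a ∈ S, normSq (Q a) ≠ 0)
    (hinj : ∀ a ∈ S, ∀ b ∈ S, (∀ j, vec (Q a) j = vec (Q b) j) → a = b)
    (W : Finset E3) (hW : ∀ a ∈ S, ∀ j, vec (Q a) j ∈ W) (n : ℕ) (hn : W.card ≤ n) :
    ∃ V : Finset E3, V.card = n ∧ (∀ v ∈ V, ‖v‖ = 1) ∧ S.card ≤ 27 * (bases V).ncard := by
  classical
  let V0 : Finset E3 := W.filter fun v => ‖v‖ = 1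
  have hV0 : V0.card ≤ n := (Finset.card_filter_le _ _).trans hn
  obtain ⟨t, ht, hc⟩ := (sphere_infinite.sdiff V0.finite_toSet).exists_subset_card_eq (n - V0.card)
  have hdisj : Disjoint V0 t := Finset.disjoint_right.2 fun v hv => (ht hv).2
  refine ⟨V0 ∪ t, ?_, ?_, ?_⟩
  · rw [Finset.card_union_of_disjoint hdisj, hc]; omega
  · intro v hv
    rcases Finset.mem_union.1 hv with h | h
    · exact (Finset.mem_filter.1 h).2
    · exact (ht h).1
  · have hfin : (bases (V0 ∪ t)).Finite :=
      (V0 ∪ t).powerset.finite_toSet.subset fun T hT =>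
        Finset.mem_coe.2 (Finset.mem_powerset.2 hT.1)
    rw [Set.ncard_eq_toFinset_card _ hfin]
    refine Finset.card_le_mul_card_image_of_maps_to
      (f := fun a => Finset.univ.image (vec (Q a))) ?_ 27 ?_
    · intro a ha
      rw [Set.Finite.mem_toFinset]
      refine ⟨?_, ?_, ?_⟩
      · intro v hv
        obtain ⟨j, -, rfl⟩ := Finset.mem_image.1 hv
        exact Finset.mem_union_left _ (Finset.mem_filter.2 ⟨hW a ha j, norm_vec (hQ a ha) j⟩)
      · rw [Finset.card_image_of_injective _ (vec_injective (hQ a ha))]; simp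
      · intro u hu v hv huv
        obtain ⟨j, -, rfl⟩ := Finset.mem_image.1 hu
        obtain ⟨k, -, rfl⟩ := Finset.mem_image.1 hv
        rw [inner_vec (hQ a ha), if_neg]
        rintro rfl
        exact huv rfl
    · intro T hT
      rw [Set.Finite.mem_toFinset] at hT
      have : (Fintype.piFinset fun _ : Fin 3 => T).card = 27 := by
        rw [Fintype.card_piFinset]; simp [hT.2.1]
      rw [← this]
      refine Finset.card_le_card_of_injOn (fun a => vec (Q a)) ?_ ?_
      · intro a ha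
        rw [Finset.mem_coe, Finset.mem_filter] at ha
        rw [Finset.mem_coe, Fintype.mem_piFinset]
        intro j
        rw [← ha.2]
        exact Finset.mem_image_of_mem _ (Finset.mem_univ j)
      · intro a ha b hb hab
        rw [Finset.mem_coe, Finset.mem_filter] at ha hb
        exact hinj a ha.1 b hb.1 fun j => congrFun hab j

lemma spec_subset {P : Finset ℕ} {io : ℕ → ℕ} (hP : ∀ p ∈ P, 1 < io p ∧ io p < p)
    (j : Fin 3) (t : ℕ →₀ ℕ) : spec P io j t ⊆ pres P t := by
  intro p hp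
  rw [spec, Finset.mem_filter] at hp
  rw [pres, Finset.mem_filter]
  refine ⟨hp.1, ?_⟩
  have := hP p hp.1
  rw [hp.2]
  fin_cases j <;> simp [sp] <;> omega

theorem main_construction {P : Finset ℕ} {io : ℕ → ℕ}
    (hP : ∀ p ∈ P, 1 < io p ∧ io p < p)
    (hP2 : ∀ p ∈ P, p.Prime ∧ p ≠ 2 ∧ (p : ℤ) ∣ (io p : ℤ) ^ 2 + 1) (k s J n : ℕ)
    (hn : J * (27 * ∑ h ∈ P.powersetCard k, ∏ p ∈ h, (p + 2)) ≤ n) :
    ∃ V : Finset E3, V.card = n ∧ (∀ v ∈ V, ‖v‖ = 1) ∧
      J * (codes P io k s).card ≤ 27 * (bases V).ncard := by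
  classical
  -- the auxiliary primes
  obtain ⟨L, hL, hLc⟩ := (Nat.infinite_setOfPred_prime.sdiff
    (insert 2 P).finite_toSet).exists_subset_card_eq J
  have hL' : ∀ l ∈ L, l.Prime ∧ l ≠ 2 ∧ l ∉ P := by
    intro l hl
    have := hL hl
    simp only [Finset.coe_insert, Set.mem_sdiff, Set.mem_ofPred_eq, Set.mem_insert_iff,
      Finset.mem_coe, not_or] at this
    exact this
  have hz : ∀ l : ℕ, ∃ z : ℍ[ℤ], normSq z = l := by
    intro l
    obtain ⟨a, b, c, d, h⟩ := Nat.sum_four_squares l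
    refine ⟨mkq a b c d, ?_⟩
    rw [normSq_def']
    simp only [mkq_re, mkq_imI, mkq_imJ, mkq_imK]
    exact_mod_cast h
  choose z hz using hz
  have hq : ∀ t : ℕ →₀ ℕ, ∃ q : ℍ[ℤ], normSq q = ((∏ p ∈ pres P t, p : ℕ) : ℤ) ∧
      ∀ p ∈ pres P t, Dv p (q * nv (io p) (t p)) := by
    intro t
    have hsub : ∀ p ∈ pres P t, p ∈ P := fun p hp => (Finset.mem_filter.1 hp).1
    exact exists_norm_prod (fun p => nv (io p) (t p)) (pres P t)
      (fun p hp => ⟨(hP2 p (hsub p hp)).1, (hP2 p (hsub p hp)).2.1⟩)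
      (fun p hp => dvd_normSq_nv (hP2 p (hsub p hp)).2.2 _)
      (fun p hp => not_Dv_nv (hP2 p (hsub p hp)).1 (hP2 p (hsub p hp)).2.1 _ _)
  choose q hq1 hq2 using hq
  have hsub : ∀ t, ∀ p ∈ pres P t, p ∈ P := fun t p hp => (Finset.mem_filter.1 hp).1
  have hnorm : ∀ l ∈ L, ∀ t, normSq (z l * q t) = ((∏ p ∈ insert l (pres P t), p : ℕ) : ℤ) := by
    intro l hl t
    rw [map_mul, hz, hq1, Finset.prod_insert fun h => (hL' l hl).2.2 (hsub t l h)]
    push_cast; ring
  have hprime : ∀ l ∈ L, ∀ t, ∀ p ∈ insert l (pres P t), p.Prime ∧ p ≠ 2 := by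
    intro l hl t p hp
    rcases Finset.mem_insert.1 hp with rfl | hp
    · exact ⟨(hL' p hl).1, (hL' p hl).2.1⟩
    · exact ⟨(hP2 p (hsub t p hp)).1, (hP2 p (hsub t p hp)).2.1⟩
  have hne : ∀ l ∈ L, ∀ t, normSq (z l * q t) ≠ 0 := by
    intro l hl t
    rw [hnorm l hl t]
    have : 0 < ∏ p ∈ insert l (pres P t), p :=
      Finset.prod_pos fun p hp => (hprime l hl t p hp).1.pos
    exact_mod_cast this.ne'
  let W : Finset E3 := (L ×ˢ ((P.powersetCard k).sigma fun h => sph (∏ p ∈ h, p))).image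
    fun a => WithLp.toLp 2 fun i =>
      ((((rot (z a.1)).mulVec a.2.2) i : ℤ) : ℝ) / ((a.1 : ℝ) * ((∏ p ∈ a.2.1, p : ℕ) : ℝ))
  have hWc : W.card ≤ n := by
    refine Finset.card_image_le.trans (le_trans ?_ hn)
    rw [Finset.card_product, hLc, Finset.card_sigma]
    refine Nat.mul_le_mul_left _ ?_
    rw [Finset.mul_sum]
    refine Finset.sum_le_sum fun h hh => ?_
    exact card_sph_le (fun p => (io p : ℤ)) h fun p hp =>
      hP2 p ((Finset.mem_powersetCard.1 hh).1 hp)
  suffices hh : (∀ a ∈ L ×ˢ codes P io k s, ∀ b ∈ L ×ˢ codes P io k s,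
      (∀ j, vec (z a.1 * q a.2) j = vec (z b.1 * q b.2) j) → a = b) ∧
      (∀ a ∈ L ×ˢ codes P io k s, ∀ j, vec (z a.1 * q a.2) j ∈ W) by
    obtain ⟨V, hV1, hV2, hV3⟩ := exists_config (L ×ˢ codes P io k s) (fun a => z a.1 * q a.2)
      (fun a ha => hne a.1 (Finset.mem_product.1 ha).1 a.2) hh.1 W hh.2 n hWc
    refine ⟨V, hV1, hV2, ?_⟩
    rwa [Finset.card_product, hLc] at hV3
  constructor
  · -- injectivity
    rintro ⟨l, t⟩ ha ⟨l', t'⟩ hb hv
    rw [Finset.mem_product] at ha hb
    obtain ⟨hl, ht⟩ := ha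
    obtain ⟨hl', ht'⟩ := hb
    dsimp only at hl ht hl' ht' hv
    have hrot : ∀ i j, normSq (z l' * q t') * rot (z l * q t) i j =
        normSq (z l * q t) * rot (z l' * q t') i j := by
      intro i j
      have h := congrArg (fun v : E3 => v i) (hv j)
      simp only [vec] at h
      rw [div_eq_div_iff (by exact_mod_cast hne l hl t) (by exact_mod_cast hne l' hl' t')] at h
      have : rot (z l * q t) i j * normSq (z l' * q t') =
          rot (z l' * q t') i j * normSq (z l * q t) := by exact_mod_cast h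
      linarith
    have incl : ∀ l ∈ L, ∀ l' ∈ L, ∀ t t', (∀ i j, normSq (z l' * q t') * rot (z l * q t) i j =
        normSq (z l * q t) * rot (z l' * q t') i j) →
        insert l (pres P t) ⊆ insert l' (pres P t') := by
      intro l hl l' hl' t t' hrot p hp
      have h1 := prime_dvd_of_rot hrot (hprime l hl t p hp).1 (hprime l hl t p hp).2
        (by rw [hnorm l hl t]; exact_mod_cast Finset.dvd_prod_of_mem _ hp)
        (not_Dv_of_norm (fun x hx => (hprime l hl t x hx).1) hp (hnorm l hl t))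
      rw [hnorm l' hl' t'] at h1
      exact mem_of_prime_dvd_prod (fun x hx => (hprime l' hl' t' x hx).1) (hprime l hl t p hp).1
        (by exact_mod_cast h1)
    have hS : insert l (pres P t) = insert l' (pres P t') :=
      Finset.Subset.antisymm (incl l hl l' hl' t t' hrot)
        (incl l' hl' l hl t' t fun i j => (hrot i j).symm)
    obtain rfl : l = l' := by
      have : l ∈ insert l' (pres P t') := hS ▸ Finset.mem_insert_self _ _
      rcases Finset.mem_insert.1 this with h | h
      · exact h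
      · exact absurd (hsub t' l h) (hL' l hl).2.2
    have hpres : pres P t = pres P t' := by
      rw [← Finset.erase_insert (s := pres P t) fun h => (hL' l hl).2.2 (hsub t l h), hS,
        Finset.erase_insert fun h => (hL' l hl).2.2 (hsub t' l h)]
    have hN : normSq (z l * q t) = normSq (z l * q t') := by
      rw [hnorm l hl, hnorm l hl, hS]
    have hR : rot (z l * q t) = rot (z l * q t') := by
      ext i j
      have := hrot i j
      rw [← hN] at this
      exact mul_left_cancel₀ (hne l hl t) this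
    rw [codes, Finset.mem_filter, Finset.mem_finsupp_iff] at ht ht'
    congr 1
    ext p
    by_cases hp : p ∈ P
    · by_cases hp' : p ∈ pres P t
      · have hp'' : p ∈ pres P t' := hpres ▸ hp'
        have hnd : ¬ Dv p (z l * q t) := not_Dv_of_norm (fun x hx => (hprime l hl t x hx).1)
          (Finset.mem_insert_of_mem hp') (hnorm l hl t)
        have a1 : Dv p (z l * q t * nv (io p) (t p)) := by
          rw [mul_assoc]; exact (hq2 t p hp').mul_left _
        have a2 : Dv p (z l * q t' * nv (io p) (t' p)) := by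
          rw [mul_assoc]; exact (hq2 t' p hp'').mul_left _
        have a3 := Dv_of_rot_eq hR hN (hP2 p hp).1 hnd a2
        have a4 := nv_incompatible (hP2 p hp).1 (hP2 p hp).2.1 (hP2 p hp).2.2 hnd a1 a3
        have b1 := Finset.mem_range.1 (ht.1.2 p hp)
        have b2 := Finset.mem_range.1 (ht'.1.2 p hp)
        have b3 := (Finset.mem_filter.1 hp').2
        have b4 := (Finset.mem_filter.1 hp'').2
        have : (t p : ℤ) - t' p = 0 :=
          Int.eq_zero_of_abs_lt_dvd a4 (by rw [abs_lt]; constructor <;> omega)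
        omega
      · have hp'' : p ∉ pres P t' := hpres ▸ hp'
        simp only [pres, Finset.mem_filter, hp, true_and, not_not] at hp' hp''
        rw [hp', hp'']
    · have a1 : p ∉ t.support := fun h => hp (ht.1.1 h)
      have a2 : p ∉ t'.support := fun h => hp (ht'.1.1 h)
      rw [Finsupp.notMem_support_iff] at a1 a2
      rw [a1, a2]
  · -- the vectors lie in W
    rintro ⟨l, t⟩ ha j
    rw [Finset.mem_product] at ha
    obtain ⟨hl, ht⟩ := ha
    dsimp only at hl ht ⊢
    rw [codes, Finset.mem_filter] at ht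
    have hsp := spec_subset hP j t
    have hcol : ∀ i, ((∏ p ∈ spec P io j t, p : ℕ) : ℤ) ∣ rot (q t) i j := by
      intro i
      push_cast
      refine Finset.prod_dvd_of_coprime ?_ ?_
      · intro p hp r hr hpr
        rw [Function.onFun, Nat.isCoprime_iff_coprime]
        exact (Nat.coprime_primes (hP2 p (hsub t p (hsp hp))).1
          (hP2 r (hsub t r (hsp hr))).1).2 hpr
      · intro p hp
        have h1 := hq2 t p (hsp hp)
        have h2 := (Finset.mem_filter.1 hp).2
        have h3 := hP2 p (hsub t p (hsp hp))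
        rw [h2] at h1
        fin_cases j
        · exact dvd_col0 h3.1 h3.2.1 (by simpa [sp] using h1) i
        · exact dvd_col1 h3.1 h3.2.1 h3.2.2 (by simpa [sp] using h1) i
        · exact dvd_col2 (i := io p) (by simpa [sp] using h1) i
    choose u hu using hcol
    set d : ℕ := ∏ p ∈ spec P io j t, p with hd
    set h : Finset ℕ := pres P t \ spec P io j t with hh
    have hm : (∏ p ∈ h, p) * d = ∏ p ∈ pres P t, p := Finset.prod_sdiff hsp
    have hd0 : 0 < d := Finset.prod_pos fun p hp => (hP2 p (hsub t p (hsp hp))).1.pos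
    have hH0 : 0 < ∏ p ∈ h, p :=
      Finset.prod_pos fun p hp => (hP2 p (hsub t p (Finset.mem_sdiff.1 hp).1)).1.pos
    refine Finset.mem_image.2 ⟨(l, ⟨h, u⟩), ?_, ?_⟩
    · rw [Finset.mem_product, Finset.mem_sigma, Finset.mem_powersetCard, mem_sph]
      refine ⟨hl, ⟨fun p hp => hsub t p (Finset.mem_sdiff.1 hp).1, ?_⟩, ?_⟩
      · show (pres P t \ spec P io j t).card = k
        rw [Finset.card_sdiff_of_subset hsp, ht.2.2, ht.2.1 j]; omega
      · have := rot_orth (q t) j j
        rw [if_pos rfl, hu 0, hu 1, hu 2, hq1, ← hm] at this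
        have hd' : ((d : ℤ)) ^ 2 ≠ 0 := by positivity
        apply mul_left_cancel₀ hd'
        dsimp only
        rw [Nat.cast_mul] at this
        linear_combination this
    · ext i
      simp only [vec]
      rw [rot_mul, map_mul, hz, hq1, ← hm, Matrix.mul_apply, Fin.sum_univ_three, hu 0, hu 1, hu 2,
        Matrix.mulVec, dotProduct, Fin.sum_univ_three]
      have hl0 : (l : ℝ) ≠ 0 := by exact_mod_cast (hL' l hl).1.ne_zero
      have hd' : (d : ℝ) ≠ 0 := by exact_mod_cast hd0.ne'
      have hH' : ((∏ p ∈ h, p : ℕ) : ℝ) ≠ 0 := by exact_mod_cast hH0.ne'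
      generalize (∏ p ∈ h, p : ℕ) = H at hH' ⊢
      push_cast
      field_simp

end Pool.Agent.Lib.MP_abd417_co
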