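import Mathlib

/-! Integer quaternions: elements of prescribed squarefree norm killing prescribed
isotropic vectors, and the associated rotation matrices. -/

namespace Pool.Agent.Lib.MP_abd417_co

open Quaternion

/-- the quaternion with given coordinates -/
def mkq (a b c d : ℤ) : ℍ[ℤ] := ⟨a, b, c, d⟩

@[simp] lemma mkq_re (a b c d : ℤ) : (mkq a b c d).re = a := rfl
@[simp] lemma mkq_imI (a b c d : ℤ) : (mkq a b c d).imI = b := rfl
@[simp] lemma mkq_imJ (a b c d : ℤ) : (mkq a b c d).imJ = c := rfl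
@[simp] lemma mkq_imK (a b c d : ℤ) : (mkq a b c d).imK = d := rfl

/-- all four coordinates of `q` are divisible by `p` -/
def Dv (p : ℤ) (q : ℍ[ℤ]) : Prop := ∃ c : ℍ[ℤ], q = p • c

lemma Dv_iff (p : ℤ) (q : ℍ[ℤ]) :
    Dv p q ↔ p ∣ q.re ∧ p ∣ q.imI ∧ p ∣ q.imJ ∧ p ∣ q.imK := by
  constructor
  · rintro ⟨c, rfl⟩
    simp
  · rintro ⟨⟨a, ha⟩, ⟨b, hb⟩, ⟨c, hc⟩, ⟨d, hd⟩⟩
    exact ⟨mkq a b c d, by ext <;> simp [*]⟩

lemma Dv.mul_left {p : ℤ} {q : ℍ[ℤ]} (h : Dv p q) (x : ℍ[ℤ]) : Dv p (x * q) := by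
  obtain ⟨c, rfl⟩ := h
  exact ⟨x * c, by rw [mul_smul_comm]⟩

lemma Dv.mul_right {p : ℤ} {q : ℍ[ℤ]} (h : Dv p q) (x : ℍ[ℤ]) : Dv p (q * x) := by
  obtain ⟨c, rfl⟩ := h
  exact ⟨c * x, by rw [smul_mul_assoc]⟩

lemma Dv.add {p : ℤ} {q r : ℍ[ℤ]} (h : Dv p q) (h' : Dv p r) : Dv p (q + r) := by
  obtain ⟨c, rfl⟩ := h
  obtain ⟨d, rfl⟩ := h'
  exact ⟨c + d, by rw [smul_add]⟩

lemma Dv.sub {p : ℤ} {q r : ℍ[ℤ]} (h : Dv p q) (h' : Dv p r) : Dv p (q - r) := by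
  obtain ⟨c, rfl⟩ := h
  obtain ⟨d, rfl⟩ := h'
  exact ⟨c - d, by rw [smul_sub]⟩

lemma Dv.smul {p : ℤ} {q : ℍ[ℤ]} (h : Dv p q) (x : ℤ) : Dv p (x • q) := by
  obtain ⟨c, rfl⟩ := h
  exact ⟨x • c, by rw [smul_comm]⟩

lemma Dv_smul_of_dvd {p x : ℤ} (h : p ∣ x) (q : ℍ[ℤ]) : Dv p (x • q) := by
  obtain ⟨c, rfl⟩ := h
  exact ⟨c • q, by rw [mul_smul]⟩

lemma Dv.of_smul {p x : ℤ} (hp : Prime p) {q : ℍ[ℤ]} (h : Dv p (x • q)) : p ∣ x ∨ Dv p q := by
  by_cases hx : p ∣ x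
  · exact Or.inl hx
  · right
    rw [Dv_iff] at h ⊢
    simp only [re_smul, imI_smul, imJ_smul, imK_smul, smul_eq_mul] at h
    obtain ⟨a, b, c, d⟩ := h
    exact ⟨(hp.dvd_or_dvd a).resolve_left hx, (hp.dvd_or_dvd b).resolve_left hx,
      (hp.dvd_or_dvd c).resolve_left hx, (hp.dvd_or_dvd d).resolve_left hx⟩

lemma Dv.sq_dvd {p : ℤ} {q : ℍ[ℤ]} (h : Dv p q) : p ^ 2 ∣ normSq q := by
  obtain ⟨c, rfl⟩ := h
  rw [normSq_smul]
  exact Dvd.intro _ rfl

lemma star_mul_mul (x a : ℍ[ℤ]) : star x * (x * a) = normSq x • a := by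
  rw [← mul_assoc, star_mul_self, coe_mul_eq_smul]

/-- balanced reduction modulo `c` -/
lemma exists_balanced (c : ℕ) (hc : 0 < c) (x : ℍ[ℤ]) :
    ∃ r k : ℍ[ℤ], x = r + (c : ℤ) • k ∧
      (normSq r < (c : ℤ) ^ 2 ∨ (2 ∣ c ∧ (c : ℤ) ^ 2 ∣ normSq x)) := by
  have red : ∀ z : ℤ, ∃ r k : ℤ, z = r + c * k ∧ -(c : ℤ) ≤ 2 * r ∧ 2 * r < c := by
    intro z
    have hc' : (0 : ℤ) < c := by exact_mod_cast hc
    have h1 := Int.emod_nonneg z hc'.ne'
    have h2 := Int.emod_lt_of_pos z hc'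
    have h3 := Int.emod_add_mul_ediv z c
    by_cases h : 2 * (z % c) < c
    · exact ⟨z % c, z / c, by linarith, by linarith, h⟩
    · exact ⟨z % c - c, z / c + 1, by linarith, by linarith, by linarith⟩
  obtain ⟨r0, k0, e0, l0, u0⟩ := red x.re
  obtain ⟨r1, k1, e1, l1, u1⟩ := red x.imI
  obtain ⟨r2, k2, e2, l2, u2⟩ := red x.imJ
  obtain ⟨r3, k3, e3, l3, u3⟩ := red x.imK
  refine ⟨mkq r0 r1 r2 r3, mkq k0 k1 k2 k3, by ext <;> simp [*], ?_⟩
  rw [normSq_def', normSq_def']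
  simp only [mkq_re, mkq_imI, mkq_imJ, mkq_imK]
  by_cases h : r0 ^ 2 + r1 ^ 2 + r2 ^ 2 + r3 ^ 2 < (c : ℤ) ^ 2
  · exact Or.inl h
  · right
    have s0 : (2 * r0) ^ 2 ≤ (c : ℤ) ^ 2 := by nlinarith
    have s1 : (2 * r1) ^ 2 ≤ (c : ℤ) ^ 2 := by nlinarith
    have s2 : (2 * r2) ^ 2 ≤ (c : ℤ) ^ 2 := by nlinarith
    have s3 : (2 * r3) ^ 2 ≤ (c : ℤ) ^ 2 := by nlinarith
    have t0 : 2 * r0 = -(c : ℤ) := by nlinarith
    have t1 : 2 * r1 = -(c : ℤ) := by nlinarith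
    have t2 : 2 * r2 = -(c : ℤ) := by nlinarith
    have t3 : 2 * r3 = -(c : ℤ) := by nlinarith
    refine ⟨by omega, 1 + (k0 ^ 2 - k0) + (k1 ^ 2 - k1) + (k2 ^ 2 - k2) + (k3 ^ 2 - k3), ?_⟩
    have hc2 : (c : ℤ) = -2 * r0 := by linarith
    have a1 : r1 = r0 := by linarith
    have a2 : r2 = r0 := by linarith
    have a3 : r3 = r0 := by linarith
    show x.re ^ 2 + x.imI ^ 2 + x.imJ ^ 2 + x.imK ^ 2 = _
    rw [e0, e1, e2, e3, a1, a2, a3, hc2]
    ring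

lemma descent (p : ℕ) (hp : p.Prime) (a : ℍ[ℤ]) :
    ∀ c : ℕ, 0 < c → c < p → ∀ x : ℍ[ℤ], normSq x = (c : ℤ) * p → Dv p (x * a) →
      ∃ y : ℍ[ℤ], normSq y = p ∧ Dv p (y * a) := by
  intro c
  induction c using Nat.strong_induction_on with
  | _ c ih =>
    intro hc hcp x hx hxa
    by_cases h1 : c = 1
    · exact ⟨x, by simp [hx, h1], hxa⟩
    have hc' : (0 : ℤ) < c := by exact_mod_cast hc
    have hnd : ¬ ((c : ℤ) ^ 2 ∣ normSq x) := by
      rw [hx, pow_two]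
      intro h
      have h2 : (c : ℤ) ∣ p := Int.dvd_of_mul_dvd_mul_left hc'.ne' h
      have h3 : c ∣ p := by exact_mod_cast h2
      rcases (Nat.dvd_prime hp).1 h3 with h | h <;> omega
    obtain ⟨r, k, e, hr⟩ := exists_balanced c hc x
    have hr' : normSq r < (c : ℤ) ^ 2 := hr.resolve_right fun h => hnd h.2
    have er : r = x - (c : ℤ) • k := by rw [e]; abel
    set y : ℍ[ℤ] := ((p : ℤ) : ℍ[ℤ]) - star k * x with hy
    have hcy : (c : ℤ) • y = star r * x := by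
      rw [er, star_sub, sub_mul, star_mul_self, hx, hy, smul_sub, Quaternion.star_smul,
        smul_mul_assoc]
      ext <;> simp
    have hN : (c : ℤ) ^ 2 * normSq y = normSq r * ((c : ℤ) * p) := by
      rw [← normSq_smul, hcy, map_mul, normSq_star, hx]
    have hdiv : (c : ℤ) ∣ normSq r := by
      have hx' := hx
      rw [normSq_def'] at hx'
      rw [er, normSq_def']
      refine ⟨p - 2 * (x.re * k.re + x.imI * k.imI + x.imJ * k.imJ + x.imK * k.imK) +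
        c * (k.re ^ 2 + k.imI ^ 2 + k.imJ ^ 2 + k.imK ^ 2), ?_⟩
      simp only [re_sub, imI_sub, imJ_sub, imK_sub, re_smul, imI_smul, imJ_smul, imK_smul,
        smul_eq_mul]
      linear_combination hx'
    obtain ⟨c', hc''⟩ := hdiv
    have hr0 : normSq r ≠ 0 := by
      intro h0
      have : r = 0 := normSq_eq_zero.1 h0
      apply hnd
      rw [e, this, zero_add, normSq_smul]
      exact Dvd.intro _ rfl
    have hrpos : 0 < normSq r := lt_of_le_of_ne normSq_nonneg hr0.symm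
    have hc'pos : 0 < c' := by
      rw [hc''] at hrpos
      nlinarith
    have hc'lt : c' < c := by
      rw [hc''] at hr'
      nlinarith
    obtain ⟨c'', rfl⟩ := Int.eq_ofNat_of_zero_le hc'pos.le
    refine ih c'' (by exact_mod_cast hc'lt) (by exact_mod_cast hc'pos)
      (by have : c'' < c := by exact_mod_cast hc'lt
          omega) y ?_ ?_
    · have : (c : ℤ) ^ 2 * normSq y = (c : ℤ) ^ 2 * (c'' * p) := by
        rw [hN, hc'']; ring
      exact mul_left_cancel₀ (by positivity) this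
    · rw [hy, sub_mul, mul_assoc]
      refine Dv.sub ⟨a, ?_⟩ (hxa.mul_left _)
      ext <;> simp

/-- a quaternion of prime norm killing a given isotropic quaternion -/
lemma exists_norm_prime (p : ℕ) (hp : p.Prime) (hodd : p ≠ 2) (a : ℍ[ℤ])
    (h1 : (p : ℤ) ∣ normSq a) (h2 : ¬ Dv p a) :
    ∃ y : ℍ[ℤ], normSq y = p ∧ Dv p (y * a) := by
  have hpz : Prime (p : ℤ) := Nat.prime_iff_prime_int.1 hp
  obtain ⟨r, k, e, hr⟩ := exists_balanced p hp.pos (star a)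
  have hr' : normSq r < (p : ℤ) ^ 2 := by
    refine hr.resolve_right fun h => hodd ?_
    exact ((Nat.prime_dvd_prime_iff_eq Nat.prime_two hp).1 h.1).symm
  have er : r = star a - (p : ℤ) • k := by rw [e]; abel
  have hra : Dv p (r * a) := by
    rw [er, sub_mul, star_mul_self, smul_mul_assoc]
    refine Dv.sub ?_ ⟨_, rfl⟩
    rw [Dv_iff]; simp [h1]
  have hdiv : (p : ℤ) ∣ normSq r := by
    have := hra.mul_left (star r)
    rw [star_mul_mul] at this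
    exact (this.of_smul hpz).resolve_right h2
  have hr0 : normSq r ≠ 0 := by
    intro h0
    have h0' : r = 0 := normSq_eq_zero.1 h0
    apply h2
    refine ⟨star k, ?_⟩
    rw [← Quaternion.star_smul, ← star_star a, e, h0', zero_add]
  have hrpos : 0 < normSq r := lt_of_le_of_ne normSq_nonneg hr0.symm
  obtain ⟨c, hc⟩ := hdiv
  have hp' : (0 : ℤ) < p := by exact_mod_cast hp.pos
  have hcpos : 0 < c := by rw [hc] at hrpos; nlinarith
  have hclt : c < p := by rw [hc] at hr'; nlinarith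
  obtain ⟨c', rfl⟩ := Int.eq_ofNat_of_zero_le hcpos.le
  exact descent p hp a c' (by exact_mod_cast hcpos) (by exact_mod_cast hclt) r
    (by rw [hc]; ring) hra

/-- a quaternion of squarefree norm killing given isotropic quaternions -/
lemma exists_norm_prod (a : ℕ → ℍ[ℤ]) (S : Finset ℕ) (hS : ∀ p ∈ S, p.Prime ∧ p ≠ 2)
    (h1 : ∀ p ∈ S, (p : ℤ) ∣ normSq (a p)) (h2 : ∀ p ∈ S, ¬ Dv p (a p)) :
    ∃ q : ℍ[ℤ], normSq q = ((∏ p ∈ S, p : ℕ) : ℤ) ∧ ∀ p ∈ S, Dv p (q * a p) := by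
  induction S using Finset.induction_on with
  | empty => exact ⟨1, by simp, by simp⟩
  | insert p S hpS ih =>
    obtain ⟨q0, hq0, hq0a⟩ := ih (fun x hx => hS x (Finset.mem_insert_of_mem hx))
      (fun x hx => h1 x (Finset.mem_insert_of_mem hx))
      (fun x hx => h2 x (Finset.mem_insert_of_mem hx))
    have hp := hS p (Finset.mem_insert_self _ _)
    have hpz : Prime (p : ℤ) := Nat.prime_iff_prime_int.1 hp.1
    obtain ⟨y, hy, hya⟩ := exists_norm_prime p hp.1 hp.2 (q0 * a p)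
      (by rw [map_mul]; exact Dvd.dvd.mul_left (h1 p (Finset.mem_insert_self _ _)) _)
      (by
        intro h
        have := h.mul_left (star q0)
        rw [star_mul_mul] at this
        rcases this.of_smul hpz with h' | h'
        · rw [hq0] at h'
          have h'' : p ∣ ∏ x ∈ S, x := by exact_mod_cast h'
          obtain ⟨x, hx, hpx⟩ := (Prime.dvd_finsetProd_iff hp.1.prime _).1 h''
          have := (Nat.prime_dvd_prime_iff_eq hp.1 (hS x (Finset.mem_insert_of_mem hx)).1).1 hpx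
          exact hpS (this ▸ hx)
        · exact h2 p (Finset.mem_insert_self _ _) h')
    refine ⟨y * q0, ?_, ?_⟩
    · rw [map_mul, hy, hq0, Finset.prod_insert hpS]; push_cast; ring
    · intro x hx
      rcases Finset.mem_insert.1 hx with rfl | hx
      · rwa [mul_assoc]
      · rw [mul_assoc]; exact (hq0a x hx).mul_left _

/-- the isotropic pure quaternion with parameter `s` -/
def nv (i s : ℤ) : ℍ[ℤ] := mkq 0 (1 - s ^ 2) (i * (1 + s ^ 2)) (2 * s)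

lemma dvd_normSq_nv {p i : ℤ} (hi : p ∣ i ^ 2 + 1) (s : ℤ) : p ∣ normSq (nv i s) := by
  obtain ⟨c, hc⟩ := hi
  refine ⟨c * (1 + s ^ 2) ^ 2, ?_⟩
  rw [normSq_def']
  simp only [nv, mkq_re, mkq_imI, mkq_imJ, mkq_imK]
  linear_combination (1 + s ^ 2) ^ 2 * hc

lemma not_dvd_two {p : ℕ} (hp : p.Prime) (hodd : p ≠ 2) : ¬ ((p : ℤ) ∣ 2) := by
  intro h
  have h' : p ∣ 2 := by exact_mod_cast h
  exact hodd ((Nat.prime_dvd_prime_iff_eq hp Nat.prime_two).1 h')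

lemma not_Dv_nv {p : ℕ} (hp : p.Prime) (hodd : p ≠ 2) (i s : ℤ) : ¬ Dv p (nv i s) := by
  have hpz : Prime (p : ℤ) := Nat.prime_iff_prime_int.1 hp
  rw [Dv_iff]
  rintro ⟨-, h1, -, h3⟩
  simp only [nv, mkq_imI, mkq_imK] at h1 h3
  have hs : (p : ℤ) ∣ s := (hpz.dvd_or_dvd h3).resolve_left (not_dvd_two hp hodd)
  have : (p : ℤ) ∣ 1 := by
    have := h1.add (Dvd.dvd.mul_left hs s)
    rwa [show 1 - s ^ 2 + s * s = 1 by ring] at this
  exact hpz.not_dvd_one this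

lemma nv_incompatible {p : ℕ} (hp : p.Prime) (hodd : p ≠ 2) {i : ℤ} (hi : (p : ℤ) ∣ i ^ 2 + 1)
    {q : ℍ[ℤ]} (hq : ¬ Dv p q) {s t : ℤ} (hs : Dv p (q * nv i s)) (ht : Dv p (q * nv i t)) :
    (p : ℤ) ∣ s - t := by
  have hpz : Prime (p : ℤ) := Nat.prime_iff_prime_int.1 hp
  have h := (hs.mul_right (nv i t)).add (ht.mul_right (nv i s))
  have e : q * nv i s * nv i t + q * nv i t * nv i s =
      (-2 * ((1 - s ^ 2) * (1 - t ^ 2) + i ^ 2 * (1 + s ^ 2) * (1 + t ^ 2) + 4 * s * t)) • q := by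
    ext <;> simp only [nv, re_add, imI_add, imJ_add, imK_add, re_mul, imI_mul, imJ_mul, imK_mul,
      re_smul, imI_smul, imJ_smul, imK_smul, mkq_re, mkq_imI, mkq_imJ, mkq_imK,
      smul_eq_mul] <;> ring
  rw [e] at h
  have h2 := (h.of_smul hpz).resolve_right hq
  have h3 : (p : ℤ) ∣ 2 * (2 * (s - t) ^ 2) := by
    have := h2.add (Dvd.dvd.mul_left hi (2 * (1 + s ^ 2) * (1 + t ^ 2)))
    have e2 : -2 * ((1 - s ^ 2) * (1 - t ^ 2) + i ^ 2 * (1 + s ^ 2) * (1 + t ^ 2) + 4 * s * t) +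
      2 * (1 + s ^ 2) * (1 + t ^ 2) * (i ^ 2 + 1) = 2 * (2 * (s - t) ^ 2) := by ring
    rwa [e2] at this
  have h4 := (hpz.dvd_or_dvd h3).resolve_left (not_dvd_two hp hodd)
  have h5 := (hpz.dvd_or_dvd h4).resolve_left (not_dvd_two hp hodd)
  exact hpz.dvd_of_dvd_pow h5

/-- the (unnormalised) rotation matrix of a quaternion -/
def rot (q : ℍ[ℤ]) : Matrix (Fin 3) (Fin 3) ℤ :=
  !![q.re ^ 2 + q.imI ^ 2 - q.imJ ^ 2 - q.imK ^ 2, 2 * (q.imI * q.imJ - q.re * q.imK),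
      2 * (q.imI * q.imK + q.re * q.imJ);
    2 * (q.imI * q.imJ + q.re * q.imK), q.re ^ 2 - q.imI ^ 2 + q.imJ ^ 2 - q.imK ^ 2,
      2 * (q.imJ * q.imK - q.re * q.imI);
    2 * (q.imI * q.imK - q.re * q.imJ), 2 * (q.imJ * q.imK + q.re * q.imI),
      q.re ^ 2 - q.imI ^ 2 - q.imJ ^ 2 + q.imK ^ 2]

lemma rot_mul (x y : ℍ[ℤ]) : rot (x * y) = rot x * rot y := by
  ext i j
  fin_cases i <;> fin_cases j <;> simp [rot, Matrix.mul_apply, Fin.sum_univ_three] <;> ring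

lemma rot_orth (q : ℍ[ℤ]) (j k : Fin 3) :
    rot q 0 j * rot q 0 k + rot q 1 j * rot q 1 k + rot q 2 j * rot q 2 k =
      if j = k then normSq q ^ 2 else 0 := by
  rw [normSq_def']
  fin_cases j <;> fin_cases k <;> simp [rot] <;> ring

lemma dvd_col0 {p : ℕ} (hp : p.Prime) (hodd : p ≠ 2) {i : ℤ} {q : ℍ[ℤ]}
    (h : Dv p (q * nv i 1)) (k : Fin 3) : (p : ℤ) ∣ rot q k 0 := by
  have hpz : Prime (p : ℤ) := Nat.prime_iff_prime_int.1 hp
  rw [Dv_iff] at h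
  obtain ⟨⟨e0, h0⟩, ⟨e1, h1⟩, ⟨e2, h2⟩, ⟨e3, h3⟩⟩ := h
  simp [nv] at h0 h1 h2 h3
  fin_cases k
  · refine (hpz.dvd_or_dvd (a := 2) ?_).resolve_left (not_dvd_two hp hodd)
    refine ⟨q.re * e3 - q.imI * e2 - q.imJ * e1 + q.imK * e0, ?_⟩
    simp [rot]
    linear_combination q.re * h3 - q.imI * h2 - q.imJ * h1 + q.imK * h0
  · refine ⟨- q.imJ * e2 - q.re * e0, ?_⟩
    simp [rot]
    linear_combination - q.imJ * h2 - q.re * h0
  · refine ⟨- q.imI * e0 - q.imJ * e3, ?_⟩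
    simp [rot]
    linear_combination - q.imI * h0 - q.imJ * h3

lemma dvd_col2 {p : ℕ} {i : ℤ} {q : ℍ[ℤ]}
    (h : Dv p (q * nv i 0)) (k : Fin 3) : (p : ℤ) ∣ rot q k 2 := by
  rw [Dv_iff] at h
  obtain ⟨⟨e0, h0⟩, ⟨e1, h1⟩, ⟨e2, h2⟩, ⟨e3, h3⟩⟩ := h
  simp [nv] at h0 h1 h2 h3
  fin_cases k
  · refine ⟨2 * (- q.imK * e0 + q.imJ * e1), ?_⟩
    simp [rot]
    linear_combination 2 * (- q.imK * h0 + q.imJ * h1)
  · refine ⟨2 * (q.imJ * e2 + q.re * e0), ?_⟩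
    simp [rot]
    linear_combination 2 * (q.imJ * h2 + q.re * h0)
  · refine ⟨q.re * e1 + q.imK * e2 + q.imI * e0 + q.imJ * e3, ?_⟩
    simp [rot]
    linear_combination q.re * h1 + q.imK * h2 + q.imI * h0 + q.imJ * h3

lemma dvd_col1 {p : ℕ} (hp : p.Prime) (hodd : p ≠ 2) {i : ℤ} (hi : (p : ℤ) ∣ i ^ 2 + 1)
    {q : ℍ[ℤ]} (h : Dv p (q * nv i i)) (k : Fin 3) : (p : ℤ) ∣ rot q k 1 := by
  have hpz : Prime (p : ℤ) := Nat.prime_iff_prime_int.1 hp
  have h' : Dv p (q * mkq 0 2 0 (2 * i)) := by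
    have hd : Dv p (mkq 0 (i ^ 2 + 1) (-i * (i ^ 2 + 1)) 0) := by
      rw [Dv_iff]
      exact ⟨dvd_zero _, hi, Dvd.dvd.mul_left hi _, dvd_zero _⟩
    have := h.add (hd.mul_left q)
    convert this using 1
    ext <;> simp [nv] <;> ring
  rw [Dv_iff] at h'
  obtain ⟨⟨e0, h0⟩, ⟨e1, h1⟩, ⟨e2, h2⟩, ⟨e3, h3⟩⟩ := h'
  simp at h0 h1 h2 h3
  fin_cases k
  · refine ⟨- q.imI * e3 - q.re * e2, ?_⟩
    simp [rot]
    linear_combination - q.imI * h3 - q.re * h2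
  · refine (hpz.dvd_or_dvd (a := 2) ?_).resolve_left (not_dvd_two hp hodd)
    refine ⟨q.re * e1 - q.imJ * e3 + q.imI * e0 - q.imK * e2, ?_⟩
    simp [rot]
    linear_combination q.re * h1 - q.imJ * h3 + q.imI * h0 - q.imK * h2
  · refine ⟨q.imJ * e2 + q.imI * e1, ?_⟩
    simp [rot]
    linear_combination q.imJ * h2 + q.imI * h1

/-- proportional rotation matrices: the prime divisors of squarefree norms agree -/
lemma prime_dvd_of_rot {q q' : ℍ[ℤ]}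
    (h : ∀ i j, normSq q' * rot q i j = normSq q * rot q' i j)
    {p : ℕ} (hp : p.Prime) (hodd : p ≠ 2) (h1 : (p : ℤ) ∣ normSq q) (h2 : ¬ Dv p q) :
    (p : ℤ) ∣ normSq q' := by
  have hpz : Prime (p : ℤ) := Nat.prime_iff_prime_int.1 hp
  by_contra hn
  apply h2
  have a0 := h 0 0
  have a1 := h 1 1
  have a2 := h 2 2
  simp [rot] at a0 a1 a2
  have hq := normSq_def' q
  have hq' := normSq_def' q'
  have key : ∀ x y : ℤ, normSq q' * (4 * x ^ 2) = normSq q * y → (p : ℤ) ∣ x := by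
    intro x y hxy
    have : (p : ℤ) ∣ normSq q' * (4 * x ^ 2) := hxy ▸ Dvd.dvd.mul_right h1 y
    have h3 := (hpz.dvd_or_dvd this).resolve_left hn
    rw [show 4 * x ^ 2 = 2 * (2 * x ^ 2) by ring] at h3
    have h4 := (hpz.dvd_or_dvd h3).resolve_left (not_dvd_two hp hodd)
    have h5 := (hpz.dvd_or_dvd h4).resolve_left (not_dvd_two hp hodd)
    exact hpz.dvd_of_dvd_pow h5
  rw [Dv_iff]
  refine ⟨key _ (4 * q'.re ^ 2) ?_, key _ (4 * q'.imI ^ 2) ?_, key _ (4 * q'.imJ ^ 2) ?_,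
    key _ (4 * q'.imK ^ 2) ?_⟩
  · linear_combination a0 + a1 + a2 - normSq q' * hq + normSq q * hq'
  · linear_combination a0 - a1 - a2 - normSq q' * hq + normSq q * hq'
  · linear_combination - a0 + a1 - a2 - normSq q' * hq + normSq q * hq'
  · linear_combination - a0 - a1 + a2 - normSq q' * hq + normSq q * hq'

/-- equal rotation matrices and equal norms: the same vectors are killed -/
lemma Dv_of_rot_eq {q q' : ℍ[ℤ]} (h : rot q = rot q') (hN : normSq q = normSq q')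
    {p : ℕ} (hp : p.Prime) (h2 : ¬ Dv p q) {a : ℍ[ℤ]} (ha : Dv p (q' * a)) :
    Dv p (q * a) := by
  have hpz : Prime (p : ℤ) := Nat.prime_iff_prime_int.1 hp
  have a00 := congrFun (congrFun h 0) 0
  have a01 := congrFun (congrFun h 0) 1
  have a02 := congrFun (congrFun h 0) 2
  have a10 := congrFun (congrFun h 1) 0
  have a11 := congrFun (congrFun h 1) 1
  have a12 := congrFun (congrFun h 1) 2
  have a20 := congrFun (congrFun h 2) 0
  have a21 := congrFun (congrFun h 2) 1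
  have a22 := congrFun (congrFun h 2) 2
  simp only [rot, Matrix.of_apply, Matrix.cons_val', Matrix.cons_val_zero, Matrix.cons_val_one,
    Matrix.cons_val_two, Matrix.head_cons, Matrix.tail_cons, Matrix.cons_val_fin_one,
    Matrix.head_fin_const, Matrix.empty_val'] at a00 a01 a02 a10 a11 a12 a20 a21 a22
  rw [normSq_def', normSq_def'] at hN
  by_contra hn
  apply h2
  have key : ∀ x y : ℤ, x • q = y • q' → (p : ℤ) ∣ x := by
    intro x y hxy
    have := ha.smul y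
    rw [← smul_mul_assoc, ← hxy, smul_mul_assoc] at this
    exact (this.of_smul hpz).resolve_right hn
  rw [Dv_iff]
  refine ⟨key _ q'.re ?_, key _ q'.imI ?_, key _ q'.imJ ?_, key _ q'.imK ?_⟩ <;>
  · ext <;> simp only [re_smul, imI_smul, imJ_smul, imK_smul, smul_eq_mul] <;> linarith

end Pool.Agent.Lib.MP_abd417_co
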